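import Mathlib

set_option autoImplicit false

/-!
MP_c971ef_nt, block LS: the pair (index, windows) by the large sieve. Definitions. FIXED.
-/

namespace PoolLS

open Finset

/-- `e(a m / q)` -/
noncomputable def ef (q a m : ℕ) : ℂ := Complex.exp (2 * Real.pi * Complex.I * (a * m / q))

/-- `∑_{j ≤ J} e(a j / q)` -/
noncomputable def FJ (J q a : ℕ) : ℂ := ∑ j ∈ range (J + 1), ef q a j

/-- the odd primes below `z` -/
def PP (z : ℕ) : Finset ℕ := (range z).filter (fun p => p.Prime ∧ p ≠ 2)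

/-- the primes of `PP z` dividing `2k+1` -/
def BB (z k : ℕ) : Finset ℕ := (PP z).filter (fun p => p ∣ 2 * k + 1)

/-- the weight of `k` -/
noncomputable def ww (z : ℕ) (f : Finset ℕ → ℝ) (k : ℕ) : ℝ := ∑ d ∈ (BB z k).powerset, f d

/-- the mean of the weight -/
noncomputable def mw (z : ℕ) (f : Finset ℕ → ℝ) : ℝ :=
  ∑ d ∈ (PP z).powerset, f d / ((∏ p ∈ d, p : ℕ) : ℝ)

/-- the indices `m` for which all of `p_m, ..., p_{m+L-1}` have `p ^ 2 - 2` with at most `R` prime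
factors, all at least `y` (`p_m = Nat.nth Nat.Prime (m - 1)`) -/
def Ind (L R : ℕ) (y : ℝ) (m : ℕ) : Prop := ∀ i, i < L →
  ArithmeticFunction.cardFactors (Nat.nth Nat.Prime (m + i - 1) ^ 2 - 2) ≤ R ∧
  ∀ r : ℕ, r.Prime → r ∣ Nat.nth Nat.Prime (m + i - 1) ^ 2 - 2 → y ≤ r

end PoolLS
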