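import Mathlib
import Pool.Agent.Work.MP_c971ef_nt.LS.Defs

set_option autoImplicit false

/-!
Module Aq (size S-M). The coefficients of the large sieve.

PROOF. Fix d with f d ≠ 0, e = ∏ p ∈ d, p (≥ 1, ≤ D), g = gcd(q, e). q | n e iff (q/g) | n. The number of
n ≤ 8N divisible by q/g is ≤ 8N g/q (real), each term is ≤ F/(n e) ≤ F/(N e) (n > N; if N = 0 the set
Ioc 0 0 is empty), so the sum over n is ≤ F (8N g/q)/(N e) = 8 F g/(e q) ≤ 8 F/q. The map d ↦ e is
injective on finite sets of primes with values in [1, D]: at most D sets d. Total ≤ 8 F D/q.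
(Compare `svfl_count` in MP_43ce8a_nt/D/SvFL.lean.)
-/

namespace PoolLS

open Finset

private theorem aq_inner (N q e : ℕ) (hq : 1 ≤ q) (he : 1 ≤ e) (G : Finset ℕ)
    (hG : G ⊆ Ioc N (8 * N)) (F c : ℝ) (hc0 : 0 ≤ c) (hc : c ≤ F) :
    ∑ n ∈ G.filter (fun n => q ∣ n * e), c / ((n * e : ℕ) : ℝ) ≤ 8 * F / q := by
  have hF : 0 ≤ F := le_trans hc0 hc
  have hq0 : (0 : ℝ) < q := by exact_mod_cast hq
  rcases Nat.eq_zero_or_pos N with hN | hN
  · subst hN
    have hG0 : G = ∅ := by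
      apply Finset.subset_empty.1
      refine hG.trans ?_
      simp
    rw [hG0]
    simp only [Finset.filter_empty, Finset.sum_empty]
    positivity
  have hN0 : (0 : ℝ) < N := by exact_mod_cast hN
  have he0 : (0 : ℝ) < e := by exact_mod_cast he
  have hg : 0 < Nat.gcd q e := Nat.gcd_pos_of_pos_left _ hq
  have hqk : q / Nat.gcd q e * Nat.gcd q e = q := Nat.div_mul_cancel (Nat.gcd_dvd_left q e)
  have hge : Nat.gcd q e ≤ e := Nat.le_of_dvd he (Nat.gcd_dvd_right q e)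
  have hk0 : 0 < q / Nat.gcd q e := Nat.div_pos (Nat.le_of_dvd hq (Nat.gcd_dvd_left q e)) hg
  have hk0' : (0 : ℝ) < (q / Nat.gcd q e : ℕ) := by exact_mod_cast hk0
  have hsub : G.filter (fun n => q ∣ n * e) ⊆
      (Ioc 0 (8 * N)).filter (fun n => q / Nat.gcd q e ∣ n) := by
    intro n hn
    obtain ⟨hn1, hn2⟩ := Finset.mem_filter.1 hn
    have hn3 := Finset.mem_Ioc.1 (hG hn1)
    refine Finset.mem_filter.2 ⟨Finset.mem_Ioc.2 ⟨by omega, hn3.2⟩, ?_⟩
    have hcop : Nat.Coprime (q / Nat.gcd q e) (e / Nat.gcd q e) := Nat.coprime_div_gcd_div_gcd hg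
    refine hcop.dvd_of_dvd_mul_right ?_
    have h1 : q / Nat.gcd q e ∣ n * e / Nat.gcd q e := Nat.div_dvd_div (Nat.gcd_dvd_left q e) hn2
    rwa [Nat.mul_div_assoc _ (Nat.gcd_dvd_right q e)] at h1
  have hcard : (((G.filter (fun n => q ∣ n * e)).card : ℕ) : ℝ) ≤
      (8 * N : ℝ) / (q / Nat.gcd q e : ℕ) := by
    have h1 := Finset.card_le_card hsub
    rw [Nat.Ioc_filter_dvd_card_eq_div] at h1
    have h2 : (((G.filter (fun n => q ∣ n * e)).card : ℕ) : ℝ) ≤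
        ((8 * N / (q / Nat.gcd q e) : ℕ) : ℝ) := by exact_mod_cast h1
    refine h2.trans ?_
    refine Nat.cast_div_le.trans ?_
    push_cast
    exact le_rfl
  have hterm : ∀ n ∈ G.filter (fun n => q ∣ n * e), c / ((n * e : ℕ) : ℝ) ≤ F / (N * e) := by
    intro n hn
    have hn3 := Finset.mem_Ioc.1 (hG (Finset.mem_filter.1 hn).1)
    have hn4 : (N : ℝ) ≤ n := by exact_mod_cast hn3.1.le
    rw [Nat.cast_mul]
    exact div_le_div₀ hF hc (by positivity) (mul_le_mul_of_nonneg_right hn4 he0.le)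
  have hsum := Finset.sum_le_card_nsmul _ _ _ hterm
  refine hsum.trans ?_
  rw [nsmul_eq_mul]
  have h3 : (((G.filter (fun n => q ∣ n * e)).card : ℕ) : ℝ) * (F / (N * e)) ≤
      (8 * N : ℝ) / (q / Nat.gcd q e : ℕ) * (F / (N * e)) :=
    mul_le_mul_of_nonneg_right hcard (by positivity)
  refine h3.trans ?_
  have h4 : (8 * N : ℝ) / (q / Nat.gcd q e : ℕ) * (F / (N * e)) =
      8 * F / ((q / Nat.gcd q e : ℕ) * e) := by
    field_simp
  rw [h4]
  have h5 : (q : ℝ) ≤ (q / Nat.gcd q e : ℕ) * e := by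
    have h6 : q ≤ q / Nat.gcd q e * e := by
      calc q = q / Nat.gcd q e * Nat.gcd q e := hqk.symm
        _ ≤ q / Nat.gcd q e * e := Nat.mul_le_mul_left _ hge
    exact_mod_cast h6
  exact div_le_div_of_nonneg_left (by positivity) hq0 h5

theorem aq (N D q : ℕ) (hq : 1 ≤ q) (G P : Finset ℕ) (hG : G ⊆ Ioc N (8 * N))
    (hP : ∀ p ∈ P, p.Prime) (f : Finset ℕ → ℝ) (F : ℝ) (hF : ∀ d, |f d| ≤ F)
    (hD : ∀ d, f d ≠ 0 → ∏ p ∈ d, p ≤ D) :
    ∑ s ∈ (G ×ˢ P.powerset).filter (fun s => q ∣ s.1 * ∏ p ∈ s.2, p),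
      |f s.2| / ((s.1 * ∏ p ∈ s.2, p : ℕ) : ℝ) ≤ 8 * F * D / q := by
  classical
  have hF0 : 0 ≤ F := le_trans (abs_nonneg _) (hF ∅)
  have hq0 : (0 : ℝ) < q := by exact_mod_cast hq
  have hpos : ∀ d ∈ P.powerset, 1 ≤ ∏ p ∈ d, p := by
    intro d hd
    refine Nat.one_le_iff_ne_zero.2 (Finset.prod_ne_zero_iff.2 fun p hp => ?_)
    exact (hP p (Finset.mem_powerset.1 hd hp)).pos.ne'
  have hstep : ∑ s ∈ (G ×ˢ P.powerset).filter (fun s => q ∣ s.1 * ∏ p ∈ s.2, p),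
      |f s.2| / ((s.1 * ∏ p ∈ s.2, p : ℕ) : ℝ) =
      ∑ d ∈ P.powerset, ∑ n ∈ G.filter (fun n => q ∣ n * ∏ p ∈ d, p),
        |f d| / ((n * ∏ p ∈ d, p : ℕ) : ℝ) := by
    rw [Finset.sum_filter, Finset.sum_product_right]
    refine Finset.sum_congr rfl fun d _ => ?_
    rw [Finset.sum_filter]
  rw [hstep]
  have hle : ∀ d ∈ P.powerset, ∑ n ∈ G.filter (fun n => q ∣ n * ∏ p ∈ d, p),
      |f d| / ((n * ∏ p ∈ d, p : ℕ) : ℝ) ≤ if f d ≠ 0 then 8 * F / q else 0 := by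
    intro d hd
    by_cases hfd : f d = 0
    · rw [if_neg (by simpa using hfd), hfd]
      simp
    · rw [if_pos hfd]
      exact aq_inner N q _ hq (hpos d hd) G hG F _ (abs_nonneg _) (hF d)
  refine (Finset.sum_le_sum hle).trans ?_
  rw [← Finset.sum_filter, Finset.sum_const, nsmul_eq_mul]
  have hcard : ((P.powerset.filter (fun d => f d ≠ 0)).card : ℕ) ≤ D := by
    have h1 : (P.powerset.filter (fun d => f d ≠ 0)).card ≤ (Finset.Icc 1 D).card := by
      refine Finset.card_le_card_of_injOn (fun d => ∏ p ∈ d, p) ?_ ?_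
      · intro d hd
        obtain ⟨hd1, hd2⟩ := Finset.mem_filter.1 (Finset.mem_coe.1 hd)
        exact Finset.mem_coe.2 (Finset.mem_Icc.2 ⟨hpos d hd1, hD d hd2⟩)
      · intro d hd d' hd' hdd
        obtain ⟨hd1, -⟩ := Finset.mem_filter.1 (Finset.mem_coe.1 hd)
        obtain ⟨hd1', -⟩ := Finset.mem_filter.1 (Finset.mem_coe.1 hd')
        have hkey : ∀ d : Finset ℕ, d ∈ P.powerset → (∏ p ∈ d, p).primeFactors = d := by
          intro d hd
          exact Nat.primeFactors_prod fun p hp => hP p (Finset.mem_powerset.1 hd hp)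
        rw [← hkey d hd1, ← hkey d' hd1']
        exact congrArg _ hdd
    simpa using h1
  have hcard' : (((P.powerset.filter (fun d => f d ≠ 0)).card : ℕ) : ℝ) ≤ D := by
    exact_mod_cast hcard
  calc (((P.powerset.filter (fun d => f d ≠ 0)).card : ℕ) : ℝ) * (8 * F / q)
      ≤ D * (8 * F / q) := mul_le_mul_of_nonneg_right hcard' (by positivity)
    _ = 8 * F * D / q := by ring

end PoolLS
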