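import Mathlib
import Pool.Agent.Work.MP_c971ef_nt.LS.Defs

set_option autoImplicit false

/-!
Module Fj (size S-M). Parseval for `FJ`.

PROOF. ∑_{a < q} ‖FJ J q a‖² = q · #{(j, j') : j, j' ≤ J, j ≡ j' mod q} (expand the square,
`∑_{a<q} e(a (j - j')/q) = q` if `q | j - j'` and 0 otherwise: geometric sum / `ZMod` characters /
`Complex.isPrimitiveRoot_exp`). For each j the number of j' ≤ J with j' ≡ j mod q is ≤ J/q + 1 (real
division; `Nat.count_modEq_card` or inject). So the full sum is ≤ q (J+1)(J/q + 1) = (J+1)(J+q). For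
q ≥ 2 the term a = 0 (which equals (J+1)²) is not coprime to q; subtract it:
(J+1)(J+q) - (J+1)² = (J+1)(q-1) ≤ (J+1) q.
-/

namespace PoolLS

open Finset

private theorem fj_geom (q : ℕ) (hq : 0 < q) (t : ℤ) :
    ∑ a ∈ range q, Complex.exp (2 * Real.pi * Complex.I * (a * t / q)) =
      if (q : ℤ) ∣ t then (q : ℂ) else 0 := by
  have hq0 : (q : ℂ) ≠ 0 := by exact_mod_cast hq.ne'
  have hz : ∀ a : ℕ, Complex.exp (2 * Real.pi * Complex.I * (a * t / q)) =
      Complex.exp (2 * Real.pi * Complex.I * (t / q)) ^ a := by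
    intro a
    rw [← Complex.exp_nat_mul]
    congr 1
    ring
  simp_rw [hz]
  have h1 : Complex.exp (2 * Real.pi * Complex.I * (t / q)) = 1 ↔ (q : ℤ) ∣ t := by
    rw [Complex.exp_eq_one_iff]
    have hpi : (2 * Real.pi * Complex.I : ℂ) ≠ 0 := Complex.two_pi_I_ne_zero
    constructor
    · rintro ⟨n, hn⟩
      refine ⟨n, ?_⟩
      have h2 : (t : ℂ) / q = n := by
        apply mul_left_cancel₀ hpi
        rw [hn]
        ring
      rw [div_eq_iff hq0] at h2
      have h3 : (t : ℂ) = ((n * q : ℤ) : ℂ) := by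
        rw [h2]
        push_cast
        ring
      have h4 : t = n * q := by exact_mod_cast h3
      rw [h4, mul_comm]
    · rintro ⟨n, rfl⟩
      refine ⟨n, ?_⟩
      push_cast
      field_simp
  split_ifs with h
  · rw [h1.2 h]
    simp
  · have hne : Complex.exp (2 * Real.pi * Complex.I * (t / q)) ≠ 1 := fun h2 => h (h1.1 h2)
    have hpow : Complex.exp (2 * Real.pi * Complex.I * (t / q)) ^ q = 1 := by
      rw [← Complex.exp_nat_mul, Complex.exp_eq_one_iff]
      refine ⟨t, ?_⟩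
      field_simp
    rw [geom_sum_eq hne, hpow, sub_self, zero_div]

private theorem fj_cnt (J q : ℕ) (hq : 0 < q) (j : ℕ) :
    (((range (J + 1)).filter (fun j' : ℕ => (q : ℤ) ∣ (j : ℤ) - j')).card : ℝ) ≤
      (J : ℝ) / q + 1 := by
  have h1 : (range (J + 1)).filter (fun j' : ℕ => (q : ℤ) ∣ (j : ℤ) - j') =
      (range (J + 1)).filter (fun j' : ℕ => j' ≡ j [MOD q]) := by
    apply filter_congr
    intro x _
    rw [← Nat.modEq_iff_dvd]
  rw [h1, ← Nat.count_eq_card_filter_range, Nat.count_modEq_card _ hq]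
  have h2 : (J + 1) / q + (if j % q < (J + 1) % q then 1 else 0) ≤ J / q + 1 := by
    rw [Nat.succ_div]
    split_ifs with h3 h4 h4
    · have h5 : (J + 1) % q = 0 := Nat.mod_eq_zero_of_dvd h3
      omega
    · omega
    · omega
    · omega
  have h3 : (((J + 1) / q + (if j % q < (J + 1) % q then 1 else 0) : ℕ) : ℝ) ≤
      ((J / q + 1 : ℕ) : ℝ) := by exact_mod_cast h2
  refine h3.trans ?_
  push_cast
  have := @Nat.cast_div_le ℝ _ _ _ J q
  linarith

private theorem fj_full (J q : ℕ) (hq : 0 < q) :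
    ∑ a ∈ range q, ‖FJ J q a‖ ^ 2 ≤ ((J : ℝ) + 1) * (J + q) := by
  have hq0 : (q : ℝ) ≠ 0 := by exact_mod_cast hq.ne'
  have hterm : ∀ a j j' : ℕ, ef q a j * (starRingEnd ℂ) (ef q a j') =
      Complex.exp (2 * Real.pi * Complex.I * (a * (((j : ℤ) - j' : ℤ) : ℂ) / q)) := by
    intro a j j'
    unfold ef
    rw [← Complex.exp_conj, ← Complex.exp_add]
    congr 1
    simp only [map_mul, map_div₀, map_ofNat, Complex.conj_ofReal, Complex.conj_I, map_natCast]
    push_cast
    ring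
  have hsq : ∀ a : ℕ, ((‖FJ J q a‖ ^ 2 : ℝ) : ℂ) =
      ∑ j ∈ range (J + 1), ∑ j' ∈ range (J + 1),
        Complex.exp (2 * Real.pi * Complex.I * (a * (((j : ℤ) - j' : ℤ) : ℂ) / q)) := by
    intro a
    have h1 : ((‖FJ J q a‖ ^ 2 : ℝ) : ℂ) = FJ J q a * (starRingEnd ℂ) (FJ J q a) := by
      rw [Complex.mul_conj, Complex.normSq_eq_norm_sq]
    rw [h1]
    unfold FJ
    rw [map_sum, sum_mul_sum]
    refine sum_congr rfl fun j _ => sum_congr rfl fun j' _ => ?_
    rw [hterm]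
  have hmain : ((∑ a ∈ range q, ‖FJ J q a‖ ^ 2 : ℝ) : ℂ) =
      ((∑ j ∈ range (J + 1), (((range (J + 1)).filter
        (fun j' : ℕ => (q : ℤ) ∣ (j : ℤ) - j')).card : ℝ) * q : ℝ) : ℂ) := by
    rw [Complex.ofReal_sum]
    simp_rw [hsq]
    rw [sum_comm]
    rw [Complex.ofReal_sum]
    refine sum_congr rfl fun j _ => ?_
    rw [sum_comm]
    simp_rw [fj_geom q hq]
    rw [← sum_filter, sum_const, nsmul_eq_mul]
    push_cast
    rfl
  have hmain' : ∑ a ∈ range q, ‖FJ J q a‖ ^ 2 =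
      ∑ j ∈ range (J + 1), (((range (J + 1)).filter
        (fun j' : ℕ => (q : ℤ) ∣ (j : ℤ) - j')).card : ℝ) * q := Complex.ofReal_injective hmain
  rw [hmain']
  calc ∑ j ∈ range (J + 1), (((range (J + 1)).filter
        (fun j' : ℕ => (q : ℤ) ∣ (j : ℤ) - j')).card : ℝ) * q
      ≤ ∑ j ∈ range (J + 1), ((J : ℝ) / q + 1) * q := by
        refine sum_le_sum fun j _ => ?_
        exact mul_le_mul_of_nonneg_right (fj_cnt J q hq j) (Nat.cast_nonneg q)
    _ = ((J : ℝ) + 1) * (J + q) := by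
        rw [sum_const, card_range, nsmul_eq_mul]
        push_cast
        field_simp

theorem fj_sum (J q : ℕ) (hq : 2 ≤ q) :
    ∑ a ∈ (range q).filter (fun a => Nat.Coprime a q), ‖FJ J q a‖ ^ 2 ≤ ((J : ℝ) + 1) * q := by
  have h1 := fj_full J q (by omega)
  have h0 : (0 : ℕ) ∈ range q := mem_range.2 (by omega)
  have hF0 : ‖FJ J q 0‖ ^ 2 = ((J : ℝ) + 1) ^ 2 := by
    have h2 : FJ J q 0 = ((J : ℂ) + 1) := by
      unfold FJ ef
      simp
    rw [h2]
    have h3 : ((J : ℂ) + 1) = ((J + 1 : ℕ) : ℂ) := by push_cast; ring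
    rw [h3, Complex.norm_natCast]
    push_cast
    ring
  have hsub : ∑ a ∈ (range q).filter (fun a => Nat.Coprime a q), ‖FJ J q a‖ ^ 2 ≤
      ∑ a ∈ (range q).erase 0, ‖FJ J q a‖ ^ 2 := by
    apply sum_le_sum_of_subset_of_nonneg
    · intro a ha
      rw [mem_filter] at ha
      rw [mem_erase]
      refine ⟨?_, ha.1⟩
      rintro rfl
      have := ha.2
      rw [Nat.coprime_zero_left] at this
      omega
    · intro a _ _
      positivity
  have h2 := add_sum_erase (range q) (fun a => ‖FJ J q a‖ ^ 2) h0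
  rw [hF0] at h2
  have hJ : (0 : ℝ) ≤ J := Nat.cast_nonneg J
  nlinarith [hsub, h1, h2]

end PoolLS
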