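import Mathlib
import Pool.Agent.Work.MP_c971ef_nt.LS.Defs

set_option autoImplicit false

/-!
Module Grp (size M). Detection of a residue class by reduced fractions.

PROOF. 1[m ≡ r mod n] = (1/n) ∑_{l < n} e(l (m - r)/n) = (1/n) ∑_{l<n} ef n l m * conj (ef n l r)
(geometric sum). Group l by g = gcd(l, n): l = g a, n = g q, a < q, gcd(a, q) = 1 (for l = 0: g = n,
q = 1, a = 0, and Coprime 0 1 holds); ef n (g a) m = ef q a m. The map (q, a) ↦ a (n/q) is a bijection
from {(q, a) : q | n, a < q, gcd(a,q) = 1} onto range n.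
-/

namespace PoolLS

open Finset

private theorem regroup (n : ℕ) (hn : 1 ≤ n) (F : ℕ → ℂ) :
    ∑ l ∈ range n, F l = ∑ q ∈ n.divisors,
      ∑ a ∈ (range q).filter (fun a => Nat.Coprime a q), F (a * (n / q)) := by
  rw [Finset.sum_sigma']
  symm
  refine Finset.sum_bij' (fun x _ => x.2 * (n / x.1))
    (fun l _ => (⟨n / n.gcd l, l / n.gcd l⟩ : (_ : ℕ) × ℕ)) ?_ ?_ ?_ ?_ ?_
  · rintro ⟨q, a⟩ hx
    simp only [Finset.mem_sigma, Nat.mem_divisors, Finset.mem_filter, Finset.mem_range] at hx ⊢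
    obtain ⟨⟨⟨c, hc⟩, hn0⟩, ha, hco⟩ := hx
    have hq : 0 < q := by omega
    have hc0 : 0 < c := by
      rcases Nat.eq_zero_or_pos c with h | h
      · subst h; simp at hc; omega
      · exact h
    rw [hc, Nat.mul_div_cancel_left c hq]
    exact Nat.mul_lt_mul_of_pos_right ha hc0
  · intro l hl
    simp only [Finset.mem_sigma, Nat.mem_divisors, Finset.mem_filter, Finset.mem_range] at hl ⊢
    have hg : 0 < n.gcd l := Nat.gcd_pos_of_pos_left _ (by omega)
    refine ⟨⟨Nat.div_dvd_of_dvd (Nat.gcd_dvd_left n l), by omega⟩, ?_, ?_⟩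
    · exact Nat.div_lt_div_of_lt_of_dvd (Nat.gcd_dvd_left n l) hl
    · exact (Nat.coprime_div_gcd_div_gcd hg).symm
  · rintro ⟨q, a⟩ hx
    simp only [Finset.mem_sigma, Nat.mem_divisors, Finset.mem_filter, Finset.mem_range] at hx
    obtain ⟨⟨⟨c, hc⟩, hn0⟩, ha, hco⟩ := hx
    have hq : 0 < q := by omega
    have hc0 : 0 < c := by
      rcases Nat.eq_zero_or_pos c with h | h
      · subst h; simp at hc; omega
      · exact h
    have h1 : n / q = c := by rw [hc, Nat.mul_div_cancel_left c hq]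
    have h2 : n.gcd (a * (n / q)) = c := by
      rw [h1, hc, Nat.gcd_mul_right, Nat.Coprime.gcd_eq_one (Nat.Coprime.symm hco), one_mul]
    dsimp only
    rw [h2, h1]
    have h3 : n / c = q := by rw [hc, Nat.mul_div_cancel q hc0]
    have h4 : a * c / c = a := Nat.mul_div_cancel a hc0
    rw [h3, h4]
  · intro l hl
    simp only [Finset.mem_range] at hl
    have hg : 0 < n.gcd l := Nat.gcd_pos_of_pos_left _ (by omega)
    dsimp only
    rw [Nat.div_div_self (Nat.gcd_dvd_left n l) (by omega)]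
    exact Nat.div_mul_cancel (Nat.gcd_dvd_right n l)
  · rintro ⟨q, a⟩ hx
    rfl

private theorem conj_ef (q a m : ℕ) :
    (starRingEnd ℂ) (ef q a m) = Complex.exp (-(2 * Real.pi * Complex.I * (a * m / q))) := by
  unfold ef
  rw [← Complex.exp_conj]
  congr 1
  simp only [map_mul, map_div₀, Complex.conj_I, Complex.conj_ofReal, map_natCast]
  have : (starRingEnd ℂ) 2 = 2 := Complex.conj_ofNat 2
  rw [this]
  ring

private theorem term_eq (n m r l : ℕ) :
    ef n l m * (starRingEnd ℂ) (ef n l r) =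
      Complex.exp (2 * Real.pi * Complex.I * (((m : ℂ) - r) / n)) ^ l := by
  rw [conj_ef, ← Complex.exp_nat_mul]
  unfold ef
  rw [← Complex.exp_add]
  congr 1
  ring

private theorem geom (n m r : ℕ) (hn : 1 ≤ n) :
    (if m ≡ r [MOD n] then (1 : ℂ) else 0) = (1 / (n : ℂ)) * ∑ l ∈ range n,
      ef n l m * (starRingEnd ℂ) (ef n l r) := by
  have hn0 : (n : ℂ) ≠ 0 := by exact_mod_cast (by omega : n ≠ 0)
  simp only [term_eq]
  have hpi : (2 * Real.pi * Complex.I : ℂ) ≠ 0 := Complex.two_pi_I_ne_zero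
  split_ifs with h
  · have h1 : Complex.exp (2 * Real.pi * Complex.I * (((m : ℂ) - r) / n)) = 1 := by
      rw [Complex.exp_eq_one_iff]
      obtain ⟨c, hc⟩ := (Nat.modEq_iff_dvd.1 h.symm)
      refine ⟨c, ?_⟩
      have h2 : ((m : ℂ) - r) = n * c := by exact_mod_cast congrArg (fun z : ℤ => (z : ℂ)) hc
      rw [h2]
      field_simp
    rw [h1]
    simp [hn0]
  · have h1 : Complex.exp (2 * Real.pi * Complex.I * (((m : ℂ) - r) / n)) ≠ 1 := by
      intro h1
      rw [Complex.exp_eq_one_iff] at h1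
      obtain ⟨c, hc⟩ := h1
      apply h
      have h2 : ((m : ℂ) - r) / n = c := by
        have h3 : (2 * Real.pi * Complex.I : ℂ) * (((m : ℂ) - r) / n) =
            (2 * Real.pi * Complex.I : ℂ) * c := by rw [hc]; ring
        exact mul_left_cancel₀ hpi h3
      rw [div_eq_iff hn0] at h2
      have h4 : ((m : ℤ) - r) = c * n := by exact_mod_cast h2
      apply Nat.ModEq.symm
      rw [Nat.modEq_iff_dvd]
      exact ⟨c, by rw [h4]; ring⟩
    rw [geom_sum_eq h1]
    have h5 : Complex.exp (2 * Real.pi * Complex.I * (((m : ℂ) - r) / n)) ^ n = 1 := by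
      rw [← Complex.exp_nat_mul, Complex.exp_eq_one_iff]
      refine ⟨(m : ℤ) - r, ?_⟩
      push_cast
      field_simp
    rw [h5]
    simp

theorem detect (n m r : ℕ) (hn : 1 ≤ n) :
    (if m ≡ r [MOD n] then (1 : ℂ) else 0) = (1 / (n : ℂ)) * ∑ q ∈ n.divisors,
      ∑ a ∈ (range q).filter (fun a => Nat.Coprime a q),
        ef q a m * (starRingEnd ℂ) (ef q a r) := by
  rw [geom n m r hn, regroup n hn]
  congr 1
  refine Finset.sum_congr rfl (fun q hq => Finset.sum_congr rfl (fun a ha => ?_))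
  rw [Nat.mem_divisors] at hq
  obtain ⟨⟨c, hc⟩, hn0⟩ := hq
  have hq0 : q ≠ 0 := by rintro rfl; simp at hc; omega
  have hc0 : c ≠ 0 := by rintro rfl; simp at hc; omega
  have hqc : (q : ℂ) ≠ 0 := by exact_mod_cast hq0
  have hcc : (c : ℂ) ≠ 0 := by exact_mod_cast hc0
  have h1 : n / q = c := by rw [hc, Nat.mul_div_cancel_left c (Nat.pos_of_ne_zero hq0)]
  have key : ∀ t : ℕ, ef n (a * (n / q)) t = ef q a t := by
    intro t
    unfold ef
    rw [h1, hc]
    congr 1
    push_cast
    field_simp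
  rw [key, key]

end PoolLS
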