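import Mathlib
import Pool.Agent.Work.MP_c971ef_nt.LS.Fj
import Pool.Agent.Work.MP_c971ef_nt.LS.Grp
import Pool.Agent.Work.BV.LSA

set_option autoImplicit false

/-!
Module Ls (size M). The large sieve for windows `r s + [0, J]` modulo `Q s`.

PROOF. For m in M: #{j ≤ J : m ≡ r + j mod Q} = ∑_j (1/Q) ∑_{q | Q} ∑_a ef q a m * conj (ef q a (r + j))
(`detect`), ef q a (r + j) = ef q a r * ef q a j, so it is
(1/Q) ∑_{q | Q} ∑_{a coprime} ef q a m * conj (ef q a r) * conj (FJ J q a). The term q = 1 (a = 0) is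
(J+1)/Q; it gives the main term. Hence
  E := ∑_{m ∈ M} ∑_s c_s #{..}/(J+1) - #M ∑ c_s/Q_s = ∑_{q=2}^R ∑_a γ(q,a) T(q,a),
  T(q,a) = ∑_{m ∈ M} ef q a m, γ(q,a) = ∑_{s ∈ S, q | Q_s} c_s/Q_s conj (ef q a (r_s)) conj (FJ J q a)/(J+1),
(as complex numbers; |E| = norm), |γ(q,a)| ≤ ‖FJ J q a‖/(J+1) · A_q, A_q = ∑_{s : q | Q_s} |c_s|/Q_s.
Cauchy-Schwarz over all pairs (q,a): |E|² ≤ (∑ |γ|²)(∑ |T|²). ∑ |γ|² ≤ ∑_q A_q² (J+1) q/(J+1)² (`fj_sum`).
∑ |T|² ≤ 8 (X + R²) #M: `Pool.Agent.Work.BV`'s `large_sieve_add R X₀ X a` (see BV/LSA.lean for its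
namespace) with a m = 1 if m ∈ M, else 0.
-/

namespace PoolLS

open Finset

private theorem ef_add' (q a m n : ℕ) : ef q a (m + n) = ef q a m * ef q a n := by
  unfold ef
  rw [← Complex.exp_add]
  congr 1
  push_cast
  ring

private theorem norm_ef' (q a m : ℕ) : ‖ef q a m‖ = 1 := by
  unfold ef
  have h : 2 * Real.pi * Complex.I * ((a : ℂ) * m / q) =
      ((2 * Real.pi * ((a : ℝ) * m / q) : ℝ) : ℂ) * Complex.I := by
    push_cast
    ring
  rw [h, Complex.norm_exp_ofReal_mul_I]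

private theorem ef_zero' (q m : ℕ) : ef q 0 m = 1 := by
  unfold ef
  simp

private theorem count_eq' (J r Q m : ℕ) (hQ : 1 ≤ Q) :
    ((#((range (J + 1)).filter (fun j => m ≡ r + j [MOD Q])) : ℝ) : ℂ) =
      (1 / (Q : ℂ)) * ∑ q ∈ Q.divisors, ∑ a ∈ (range q).filter (fun a => Nat.Coprime a q),
        ef q a m * ((starRingEnd ℂ) (ef q a r) * (starRingEnd ℂ) (FJ J q a)) := by
  have h1 : ((#((range (J + 1)).filter (fun j => m ≡ r + j [MOD Q])) : ℝ) : ℂ) =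
      ∑ j ∈ range (J + 1), (if m ≡ r + j [MOD Q] then (1 : ℂ) else 0) := by
    rw [Finset.card_filter]
    push_cast
    refine Finset.sum_congr rfl fun j _ => ?_
    split_ifs <;> simp
  rw [h1, Finset.sum_congr rfl (fun j _ => detect Q m (r + j) hQ), ← Finset.mul_sum]
  congr 1
  rw [Finset.sum_comm]
  refine Finset.sum_congr rfl fun q _ => ?_
  rw [Finset.sum_comm]
  refine Finset.sum_congr rfl fun a _ => ?_
  rw [← Finset.mul_sum]
  congr 1
  unfold FJ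
  rw [map_sum, Finset.mul_sum]
  refine Finset.sum_congr rfl fun j _ => ?_
  rw [ef_add', map_mul]

private theorem diff_eq' (J r Q R m : ℕ) (hQ : 1 ≤ Q) (hQR : Q ≤ R) :
    (((#((range (J + 1)).filter (fun j => m ≡ r + j [MOD Q])) : ℝ) / ((J : ℝ) + 1) -
        1 / (Q : ℝ) : ℝ) : ℂ) =
      ∑ q ∈ Icc 2 R, ∑ a ∈ (range q).filter (fun a => Nat.Coprime a q),
        ef q a m * (if q ∣ Q then (1 / (Q : ℂ)) * ((starRingEnd ℂ) (ef q a r) *
          ((starRingEnd ℂ) (FJ J q a) / ((J : ℂ) + 1))) else 0) := by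
  have hdiv : Q.divisors = insert 1 ((Icc 2 R).filter (fun q => q ∣ Q)) := by
    ext q
    rw [Nat.mem_divisors, mem_insert, mem_filter, mem_Icc]
    constructor
    · rintro ⟨h1, h2⟩
      have h3 := Nat.le_of_dvd (by omega) h1
      have h4 : q ≠ 0 := by
        rintro rfl
        exact h2 (zero_dvd_iff.1 h1)
      by_cases h5 : q = 1
      · exact Or.inl h5
      · exact Or.inr ⟨⟨by omega, by omega⟩, h1⟩
    · rintro (rfl | ⟨h1, h2⟩)
      · exact ⟨one_dvd _, by omega⟩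
      · exact ⟨h2, by omega⟩
  have hn1 : (1 : ℕ) ∉ (Icc 2 R).filter (fun q => q ∣ Q) := by
    rw [mem_filter, mem_Icc]
    omega
  have hone : ∑ a ∈ (range 1).filter (fun a => Nat.Coprime a 1),
      ef 1 a m * ((starRingEnd ℂ) (ef 1 a r) * (starRingEnd ℂ) (FJ J 1 a)) = (J : ℂ) + 1 := by
    have h1 : (range 1).filter (fun a => Nat.Coprime a 1) = {0} := by
      ext a
      rw [mem_filter, mem_range, mem_singleton]
      constructor
      · rintro ⟨h, -⟩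
        omega
      · rintro rfl
        exact ⟨by omega, by decide⟩
    have h2 : FJ J 1 0 = (J : ℂ) + 1 := by
      unfold FJ
      rw [Finset.sum_congr rfl (fun j _ => ef_zero' 1 j), Finset.sum_const, card_range,
        nsmul_eq_mul, mul_one]
      push_cast
      rfl
    rw [h1, Finset.sum_singleton, ef_zero', ef_zero', h2, map_one, map_add, map_one,
      Complex.conj_natCast, one_mul, one_mul]
  have hJ0 : (J : ℂ) + 1 ≠ 0 := by exact_mod_cast Nat.succ_ne_zero J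
  have hc := count_eq' J r Q m hQ
  rw [hdiv, Finset.sum_insert hn1, hone] at hc
  rw [Complex.ofReal_sub, Complex.ofReal_div, hc]
  push_cast
  have h3 : ∀ q ∈ Icc 2 R, ∑ a ∈ (range q).filter (fun a => Nat.Coprime a q),
        ef q a m * (if q ∣ Q then (1 / (Q : ℂ)) * ((starRingEnd ℂ) (ef q a r) *
          ((starRingEnd ℂ) (FJ J q a) / ((J : ℂ) + 1))) else 0) =
      (1 / (Q : ℂ)) / ((J : ℂ) + 1) * (if q ∣ Q then
        ∑ a ∈ (range q).filter (fun a => Nat.Coprime a q),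
          ef q a m * ((starRingEnd ℂ) (ef q a r) * (starRingEnd ℂ) (FJ J q a)) else 0) := by
    intro q _
    by_cases hq : q ∣ Q
    · simp only [if_pos hq]
      rw [Finset.mul_sum]
      refine Finset.sum_congr rfl fun a _ => ?_
      ring
    · simp only [if_neg hq]
      simp
  rw [Finset.sum_congr rfl h3, ← Finset.mul_sum, ← Finset.sum_filter]
  field_simp
  ring

theorem ls {ι : Type} (S : Finset ι) (Q r : ι → ℕ) (c : ι → ℝ) (R J X₀ X : ℕ) (M : Finset ℕ)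
    (hM : M ⊆ Ico X₀ (X₀ + X)) (hQ : ∀ s ∈ S, 1 ≤ Q s ∧ Q s ≤ R) :
    (∑ m ∈ M, ∑ s ∈ S, c s * ((#((range (J + 1)).filter (fun j => m ≡ r s + j [MOD Q s])) : ℝ) /
        ((J : ℝ) + 1)) - #M * ∑ s ∈ S, c s / Q s) ^ 2 ≤
      8 * ((X : ℝ) + (R : ℝ) ^ 2) * #M / ((J : ℝ) + 1) *
        ∑ q ∈ Icc 2 R, (q : ℝ) * (∑ s ∈ S.filter (fun s => q ∣ Q s), |c s| / Q s) ^ 2 := by
  classical
  have hJ0 : (0 : ℝ) < (J : ℝ) + 1 := by positivity
  -- the two factors
  obtain ⟨T, hT⟩ : ∃ T : ℕ → ℕ → ℂ, T = fun q a => ∑ m ∈ M, ef q a m := ⟨_, rfl⟩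
  obtain ⟨γ, hγ⟩ : ∃ γ : ℕ → ℕ → ℂ, γ = fun q a => ∑ s ∈ S.filter (fun s => q ∣ Q s),
      ((c s / Q s : ℝ) : ℂ) * ((starRingEnd ℂ) (ef q a (r s)) *
        ((starRingEnd ℂ) (FJ J q a) / ((J : ℂ) + 1))) := ⟨_, rfl⟩
  obtain ⟨A, hA⟩ : ∃ A : ℕ → ℝ, A = fun q => ∑ s ∈ S.filter (fun s => q ∣ Q s), |c s| / Q s :=
    ⟨_, rfl⟩
  obtain ⟨E, hE⟩ : ∃ E : ℝ, E = ∑ m ∈ M, ∑ s ∈ S,
      c s * ((#((range (J + 1)).filter (fun j => m ≡ r s + j [MOD Q s])) : ℝ) /
        ((J : ℝ) + 1)) - #M * ∑ s ∈ S, c s / Q s := ⟨_, rfl⟩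
  have hE1 : E = ∑ m ∈ M, ∑ s ∈ S,
      c s * ((#((range (J + 1)).filter (fun j => m ≡ r s + j [MOD Q s])) : ℝ) /
        ((J : ℝ) + 1) - 1 / (Q s : ℝ)) := by
    rw [hE]
    have h1 : (#M : ℝ) * ∑ s ∈ S, c s / Q s = ∑ _m ∈ M, ∑ s ∈ S, c s / Q s := by
      rw [Finset.sum_const, nsmul_eq_mul]
    rw [h1, ← Finset.sum_sub_distrib]
    refine Finset.sum_congr rfl fun m _ => ?_
    rw [← Finset.sum_sub_distrib]
    refine Finset.sum_congr rfl fun s _ => ?_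
    ring
  have hE2 : (E : ℂ) = ∑ q ∈ Icc 2 R, ∑ a ∈ (range q).filter (fun a => Nat.Coprime a q),
      T q a * γ q a := by
    have h1 : ∀ m ∈ M, ((∑ s ∈ S,
        c s * ((#((range (J + 1)).filter (fun j => m ≡ r s + j [MOD Q s])) : ℝ) /
        ((J : ℝ) + 1) - 1 / (Q s : ℝ)) : ℝ) : ℂ) =
        ∑ q ∈ Icc 2 R, ∑ a ∈ (range q).filter (fun a => Nat.Coprime a q),
          ef q a m * γ q a := by
      intro m _
      rw [Complex.ofReal_sum]
      have h2 : ∀ s ∈ S, ((c s * ((#((range (J + 1)).filter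
          (fun j => m ≡ r s + j [MOD Q s])) : ℝ) /
          ((J : ℝ) + 1) - 1 / (Q s : ℝ)) : ℝ) : ℂ) =
          ∑ q ∈ Icc 2 R, ∑ a ∈ (range q).filter (fun a => Nat.Coprime a q),
            (c s : ℂ) * (ef q a m * (if q ∣ Q s then (1 / (Q s : ℂ)) *
              ((starRingEnd ℂ) (ef q a (r s)) *
              ((starRingEnd ℂ) (FJ J q a) / ((J : ℂ) + 1))) else 0)) := by
        intro s hs
        rw [Complex.ofReal_mul, diff_eq' J (r s) (Q s) R m (hQ s hs).1 (hQ s hs).2,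
          Finset.mul_sum]
        exact Finset.sum_congr rfl fun q _ => Finset.mul_sum _ _ _
      rw [Finset.sum_congr rfl h2, Finset.sum_comm]
      refine Finset.sum_congr rfl fun q _ => ?_
      rw [Finset.sum_comm]
      refine Finset.sum_congr rfl fun a _ => ?_
      rw [hγ]
      dsimp only
      rw [Finset.sum_filter, Finset.mul_sum]
      refine Finset.sum_congr rfl fun s _ => ?_
      by_cases hq : q ∣ Q s
      · simp only [if_pos hq]
        push_cast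
        ring
      · simp only [if_neg hq]
        simp
    rw [hE1, Complex.ofReal_sum, Finset.sum_congr rfl h1, Finset.sum_comm]
    refine Finset.sum_congr rfl fun q _ => ?_
    rw [Finset.sum_comm]
    refine Finset.sum_congr rfl fun a _ => ?_
    rw [hT]
    dsimp only
    rw [Finset.sum_mul]
  have hγn : ∀ q a, ‖γ q a‖ ≤ A q * (‖FJ J q a‖ / ((J : ℝ) + 1)) := by
    intro q a
    rw [hγ, hA]
    dsimp only
    refine (norm_sum_le _ _).trans ?_
    rw [Finset.sum_mul]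
    refine Finset.sum_le_sum fun s _ => ?_
    have h1 : ‖(J : ℂ) + 1‖ = (J : ℝ) + 1 := by
      have h2 : (J : ℂ) + 1 = (((J : ℝ) + 1 : ℝ) : ℂ) := by push_cast; rfl
      rw [h2, Complex.norm_real, Real.norm_of_nonneg hJ0.le]
    rw [norm_mul, norm_mul, norm_div, RCLike.norm_conj, RCLike.norm_conj, norm_ef', one_mul, h1,
      Complex.norm_real, Real.norm_eq_abs, abs_div, Nat.abs_cast]
  have hAn : ∀ q, 0 ≤ A q := by
    intro q
    rw [hA]
    exact Finset.sum_nonneg fun s _ => div_nonneg (abs_nonneg _) (Nat.cast_nonneg _)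
  have hγ2 : ∑ q ∈ Icc 2 R, ∑ a ∈ (range q).filter (fun a => Nat.Coprime a q),
      ‖γ q a‖ ^ 2 ≤ (∑ q ∈ Icc 2 R, (q : ℝ) * A q ^ 2) / ((J : ℝ) + 1) := by
    rw [Finset.sum_div]
    refine Finset.sum_le_sum fun q hq => ?_
    have hq2 : 2 ≤ q := (mem_Icc.1 hq).1
    calc ∑ a ∈ (range q).filter (fun a => Nat.Coprime a q), ‖γ q a‖ ^ 2
        ≤ ∑ a ∈ (range q).filter (fun a => Nat.Coprime a q),
          (A q / ((J : ℝ) + 1)) ^ 2 * ‖FJ J q a‖ ^ 2 := by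
          refine Finset.sum_le_sum fun a _ => ?_
          have h1 : ‖γ q a‖ ^ 2 ≤ (A q * (‖FJ J q a‖ / ((J : ℝ) + 1))) ^ 2 :=
            pow_le_pow_left₀ (norm_nonneg _) (hγn q a) 2
          refine h1.trans (le_of_eq ?_)
          ring
      _ = (A q / ((J : ℝ) + 1)) ^ 2 *
          ∑ a ∈ (range q).filter (fun a => Nat.Coprime a q), ‖FJ J q a‖ ^ 2 := by
          rw [Finset.mul_sum]
      _ ≤ (A q / ((J : ℝ) + 1)) ^ 2 * (((J : ℝ) + 1) * q) :=
          mul_le_mul_of_nonneg_left (fj_sum J q hq2) (sq_nonneg _)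
      _ = (q : ℝ) * A q ^ 2 / ((J : ℝ) + 1) := by
          field_simp
  have hT2 : ∑ q ∈ Icc 2 R, ∑ a ∈ (range q).filter (fun a => Nat.Coprime a q),
      ‖T q a‖ ^ 2 ≤ 8 * ((X : ℝ) + (R : ℝ) ^ 2) * #M := by
    have h1 := BV.large_sieve_add R X₀ X (fun n => if n ∈ M then 1 else 0)
    have h2 : ∑ n ∈ Ico X₀ (X₀ + X), ‖(if n ∈ M then (1 : ℂ) else 0)‖ ^ 2 = #M := by
      have h3 : ∀ n ∈ Ico X₀ (X₀ + X), ‖(if n ∈ M then (1 : ℂ) else 0)‖ ^ 2 =
          if n ∈ M then (1 : ℝ) else 0 := by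
        intro n _
        split_ifs <;> simp
      rw [Finset.sum_congr rfl h3, Finset.sum_ite_mem, inter_eq_right.2 hM, Finset.sum_const,
        nsmul_eq_mul, mul_one]
    rw [h2] at h1
    refine le_trans ?_ h1
    have h3 : ∀ q a, T q a = ∑ n ∈ Ico X₀ (X₀ + X), (if n ∈ M then (1 : ℂ) else 0) *
        Complex.exp (2 * Real.pi * Complex.I * (a * n / q)) := by
      intro q a
      rw [hT]
      dsimp only
      have h4 : ∀ n ∈ Ico X₀ (X₀ + X), (if n ∈ M then (1 : ℂ) else 0) *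
          Complex.exp (2 * Real.pi * Complex.I * (a * n / q)) =
          if n ∈ M then ef q a n else 0 := by
        intro n _
        unfold ef
        split_ifs <;> simp
      rw [Finset.sum_congr rfl h4, Finset.sum_ite_mem, inter_eq_right.2 hM]
    have h5 : ∑ q ∈ Icc 2 R, ∑ a ∈ (range q).filter (fun a => Nat.Coprime a q),
        ‖T q a‖ ^ 2 ≤ ∑ q ∈ Icc 1 R, ∑ a ∈ (range q).filter (fun a => Nat.Coprime a q),
        ‖T q a‖ ^ 2 := by
      refine Finset.sum_le_sum_of_subset_of_nonneg (Icc_subset_Icc (by omega) le_rfl) ?_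
      intro q _ _
      exact Finset.sum_nonneg fun a _ => sq_nonneg _
    refine h5.trans (le_of_eq ?_)
    refine Finset.sum_congr rfl fun q _ => Finset.sum_congr rfl fun a _ => ?_
    rw [h3 q a]
  -- Cauchy-Schwarz
  rw [← hE]
  have hnorm : |E| ≤ ∑ q ∈ Icc 2 R, ∑ a ∈ (range q).filter (fun a => Nat.Coprime a q),
      ‖T q a‖ * ‖γ q a‖ := by
    have h1 : |E| = ‖(E : ℂ)‖ := by rw [Complex.norm_real, Real.norm_eq_abs]
    rw [h1, hE2]
    refine (norm_sum_le _ _).trans (Finset.sum_le_sum fun q _ => ?_)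
    refine (norm_sum_le _ _).trans (Finset.sum_le_sum fun a _ => ?_)
    rw [norm_mul]
  have hCS : (∑ q ∈ Icc 2 R, ∑ a ∈ (range q).filter (fun a => Nat.Coprime a q),
      ‖T q a‖ * ‖γ q a‖) ^ 2 ≤
      (∑ q ∈ Icc 2 R, ∑ a ∈ (range q).filter (fun a => Nat.Coprime a q), ‖T q a‖ ^ 2) *
      (∑ q ∈ Icc 2 R, ∑ a ∈ (range q).filter (fun a => Nat.Coprime a q), ‖γ q a‖ ^ 2) := by
    rw [Finset.sum_sigma', Finset.sum_sigma', Finset.sum_sigma']
    exact Finset.sum_mul_sq_le_sq_mul_sq _ _ _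
  have hAE : ∑ q ∈ Icc 2 R, (q : ℝ) * (∑ s ∈ S.filter (fun s => q ∣ Q s), |c s| / Q s) ^ 2 =
      ∑ q ∈ Icc 2 R, (q : ℝ) * A q ^ 2 := by
    rw [hA]
  rw [hAE]
  have hnn : 0 ≤ ∑ q ∈ Icc 2 R, (q : ℝ) * A q ^ 2 :=
    Finset.sum_nonneg fun q _ => mul_nonneg (Nat.cast_nonneg _) (sq_nonneg _)
  calc E ^ 2 = |E| ^ 2 := (sq_abs E).symm
    _ ≤ (∑ q ∈ Icc 2 R, ∑ a ∈ (range q).filter (fun a => Nat.Coprime a q),
      ‖T q a‖ * ‖γ q a‖) ^ 2 := pow_le_pow_left₀ (abs_nonneg _) hnorm 2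
    _ ≤ _ := hCS
    _ ≤ (8 * ((X : ℝ) + (R : ℝ) ^ 2) * #M) *
        ((∑ q ∈ Icc 2 R, (q : ℝ) * A q ^ 2) / ((J : ℝ) + 1)) := by
        refine mul_le_mul hT2 hγ2 ?_ (by positivity)
        exact Finset.sum_nonneg fun q _ => Finset.sum_nonneg fun a _ => sq_nonneg _
    _ = 8 * ((X : ℝ) + (R : ℝ) ^ 2) * #M / ((J : ℝ) + 1) *
        ∑ q ∈ Icc 2 R, (q : ℝ) * A q ^ 2 := by ring

end PoolLS
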