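import Mathlib
import Pool.Agent.Work.MP_c971ef_nt.LS.Defs

set_option autoImplicit false

/-!
Module Prog (size S-M). The condition `D | 2 k + 1`, `m = k n + j` as a residue class modulo `n D`.

PROOF. D = ∏ p ∈ d, p is odd (all p odd primes); a = (D-1)/2, so 2a + 1 = D. For j < m:
m ≡ n a + j mod n D iff n D | (m - j) - n a (in ℤ) iff n | m - j and, with k = (m-j)/n, D | k - a (cancel
n > 0) iff n | m - j and D | 2k - 2a = (2k+1) - D (D odd) iff D | 2k+1 iff every p in d divides 2k+1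
(distinct primes: `Finset.prod_primes_dvd` / `Nat.Coprime` product; conversely dvd_trans).
-/

namespace PoolLS

open Finset

private theorem prod_dvd' (d : Finset ℕ) (hd : ∀ p ∈ d, p.Prime ∧ p ≠ 2) (N : ℕ) :
    (∏ p ∈ d, p) ∣ N ↔ ∀ p ∈ d, p ∣ N := by
  constructor
  · intro h p hp
    exact (Finset.dvd_prod_of_mem (fun p => p) hp).trans h
  · intro h
    exact Finset.prod_primes_dvd N (fun p hp => (hd p hp).1.prime) h

private theorem prod_odd' (d : Finset ℕ) (hd : ∀ p ∈ d, p.Prime ∧ p ≠ 2) :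
    Odd (∏ p ∈ d, p) := by
  refine Finset.prod_induction _ Odd (fun a b ha hb => ha.mul hb) odd_one fun p hp => ?_
  exact (hd p hp).1.odd_of_ne_two (hd p hp).2

theorem prog (n m j : ℕ) (d : Finset ℕ) (hn : 1 ≤ n) (hj : j < m)
    (hd : ∀ p ∈ d, p.Prime ∧ p ≠ 2) :
    m ≡ n * (((∏ p ∈ d, p) - 1) / 2) + j [MOD n * ∏ p ∈ d, p] ↔
      n ∣ m - j ∧ ∀ p ∈ d, p ∣ 2 * ((m - j) / n) + 1 := by
  rw [← prod_dvd' d hd]
  obtain ⟨D, hD⟩ : ∃ D, D = ∏ p ∈ d, p := ⟨_, rfl⟩
  have hodd := prod_odd' d hd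
  rw [← hD] at hodd ⊢
  obtain ⟨a, ha⟩ := hodd
  have ha2 : (D - 1) / 2 = a := by omega
  rw [ha2]
  obtain ⟨t, ht⟩ : ∃ t, m = j + t := ⟨m - j, by omega⟩
  have hmj : m - j = t := by omega
  rw [hmj]
  have hcop : IsCoprime (D : ℤ) 2 := by
    refine ⟨1, -a, ?_⟩
    rw [ha]
    push_cast
    ring
  have h1 : m ≡ n * a + j [MOD n * D] ↔ ((n * D : ℕ) : ℤ) ∣ (n : ℤ) * a - t := by
    rw [Nat.modEq_iff_dvd, ht]
    push_cast
    constructor
    · intro h
      have h2 : (n : ℤ) * a - t = n * a + j - (j + t) := by ring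
      rw [h2]
      exact h
    · intro h
      have h2 : (n : ℤ) * a + j - (j + t) = n * a - t := by ring
      rw [h2]
      exact h
  rw [h1]
  have key : ∀ k : ℕ, ((n * D : ℕ) : ℤ) ∣ (n : ℤ) * a - (n * k : ℕ) ↔ D ∣ 2 * k + 1 := by
    intro k
    have h2 : (n : ℤ) * a - (n * k : ℕ) = n * (a - k) := by
      push_cast
      ring
    have hn0 : (n : ℤ) ≠ 0 := by exact_mod_cast (show n ≠ 0 by omega)
    rw [h2]
    push_cast
    rw [mul_dvd_mul_iff_left hn0, ← Int.natCast_dvd_natCast (m := D)]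
    push_cast
    constructor
    · rintro ⟨c, hc⟩
      refine ⟨1 - 2 * c, ?_⟩
      have h3 : (D : ℤ) = 2 * a + 1 := by
        rw [ha]
        push_cast
        ring
      linear_combination (-2) * hc - h3
    · intro h
      have h3 : (D : ℤ) = 2 * a + 1 := by
        rw [ha]
        push_cast
        ring
      have h4 : (D : ℤ) ∣ 2 * (a - k) := by
        have h5 : (2 : ℤ) * (a - k) = D - (2 * k + 1) := by
          rw [h3]
          ring
        rw [h5]
        exact dvd_sub (dvd_refl _) h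
      exact hcop.dvd_of_dvd_mul_left h4
  constructor
  · intro h
    have h2 : (n : ℤ) ∣ t := by
      have h3 : (n : ℤ) ∣ (n : ℤ) * a - t := by
        refine dvd_trans ?_ h
        push_cast
        exact dvd_mul_right _ _
      have h4 : (t : ℤ) = n * a - ((n : ℤ) * a - t) := by ring
      rw [h4]
      exact dvd_sub (dvd_mul_right _ _) h3
    have h3 : n ∣ t := by exact_mod_cast h2
    refine ⟨h3, ?_⟩
    obtain ⟨k, hk⟩ := h3
    rw [hk, Nat.mul_div_cancel_left k (by omega)]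
    rw [hk] at h
    exact (key k).1 h
  · rintro ⟨⟨k, hk⟩, h⟩
    rw [hk, Nat.mul_div_cancel_left k (by omega)] at h
    rw [hk]
    exact (key k).2 h

end PoolLS
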