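import Mathlib
import Pool.Agent.Work.MP_c971ef_nt.LS.Ls
import Pool.Agent.Work.MP_c971ef_nt.LS.Prog
import Pool.Agent.Work.MP_c971ef_nt.LS.Aq

set_option autoImplicit false

/-!
Module Wls (size M). The large sieve for the weights `ww z f`.

PROOF. Apply `ls` with S = (G ×ˢ (PP z).powerset).filter (fun s => f s.2 ≠ 0), Q s = s.1 * ∏ p ∈ s.2, p
(≤ 8 N D = R, ≥ 1), r s = s.1 * ((∏ p ∈ s.2, p) - 1)/2, c s = f s.2.
(1) For m ∈ M (so J < m, hence j < m for all j ≤ J) and n ∈ G: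
  ∑_{d ⊆ PP z} f d #{j ≤ J : m ≡ r + j mod n e_d} = ∑_{j ≤ J, n | m - j} ∑_{d ⊆ PP z, ∀ p ∈ d, p | 2k+1} f d
  with k = (m-j)/n (`prog`), and the inner sum is ww z f k (d ⊆ BB z k iff d ⊆ PP z and all p ∈ d divide
  2k+1). The terms with f d = 0 vanish, so the filter does not matter.
(2) ∑_s c_s/Q_s = (∑_{n ∈ G} 1/n) mw z f.
(3) A_q ≤ 8 F D/q (`aq`, after dropping the filter f ≠ 0: nonnegative terms), so
  ∑_{q=2}^R q A_q² ≤ 64 F² D² ∑_{q ≤ R} 1/q ≤ 64 F² D² (1 + log R) (`harmonic_le_one_add_log` or similar).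
-/

namespace PoolLS

open Finset

private lemma wls_powerset (z k : ℕ) :
    (PP z).powerset.filter (fun d => ∀ p ∈ d, p ∣ 2 * k + 1) = (BB z k).powerset := by
  ext d
  simp only [mem_filter, mem_powerset]
  constructor
  · rintro ⟨h1, h2⟩ p hp
    exact mem_filter.2 ⟨h1 hp, h2 p hp⟩
  · intro h
    exact ⟨fun p hp => (mem_filter.1 (h hp)).1, fun p hp => (mem_filter.1 (h hp)).2⟩

private lemma wls_inner (J m z n : ℕ) (f : Finset ℕ → ℝ) (hJ : J < m) (hn : 1 ≤ n) :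
    ∑ d ∈ (PP z).powerset, f d * ((#((range (J + 1)).filter (fun j =>
        m ≡ n * (((∏ p ∈ d, p) - 1) / 2) + j [MOD n * ∏ p ∈ d, p])) : ℝ) / ((J : ℝ) + 1)) =
      (∑ j ∈ (range (J + 1)).filter (fun j => n ∣ m - j), ww z f ((m - j) / n)) /
        ((J : ℝ) + 1) := by
  have h1 : ∀ d ∈ (PP z).powerset, f d * ((#((range (J + 1)).filter (fun j =>
        m ≡ n * (((∏ p ∈ d, p) - 1) / 2) + j [MOD n * ∏ p ∈ d, p])) : ℝ) / ((J : ℝ) + 1)) =
      (∑ j ∈ range (J + 1), if (n ∣ m - j ∧ ∀ p ∈ d, p ∣ 2 * ((m - j) / n) + 1) then f d else 0) /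
        ((J : ℝ) + 1) := by
    intro d hd
    have hd' : ∀ p ∈ d, p.Prime ∧ p ≠ 2 := by
      intro p hp
      have := mem_powerset.1 hd hp
      exact (mem_filter.1 this).2
    have h2 : (range (J + 1)).filter (fun j =>
        m ≡ n * (((∏ p ∈ d, p) - 1) / 2) + j [MOD n * ∏ p ∈ d, p]) =
        (range (J + 1)).filter (fun j => n ∣ m - j ∧ ∀ p ∈ d, p ∣ 2 * ((m - j) / n) + 1) := by
      apply filter_congr
      intro j hj
      exact prog n m j d hn (by have := mem_range.1 hj; omega) hd'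
    rw [h2, card_filter]
    push_cast
    rw [← mul_div_assoc, mul_sum]
    congr 1
    apply sum_congr rfl
    intro j _
    split_ifs <;> simp
  rw [sum_congr rfl h1, ← sum_div]
  congr 1
  rw [sum_comm, sum_filter]
  apply sum_congr rfl
  intro j _
  by_cases hj : n ∣ m - j
  · rw [if_pos hj, ww, ← wls_powerset, sum_filter]
    apply sum_congr rfl
    intro d _
    by_cases h : ∀ p ∈ d, p ∣ 2 * ((m - j) / n) + 1
    · rw [if_pos h, if_pos ⟨hj, h⟩]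
    · rw [if_neg h, if_neg (fun h' => h h'.2)]
  · rw [if_neg hj]
    apply sum_eq_zero
    intro d _
    rw [if_neg (fun h' => hj h'.1)]

private lemma wls_count (J m z : ℕ) (f : Finset ℕ → ℝ) (G : Finset ℕ) (hJ : J < m)
    (hG : ∀ n ∈ G, 1 ≤ n) :
    ∑ s ∈ (G ×ˢ (PP z).powerset).filter (fun s => f s.2 ≠ 0), f s.2 *
      ((#((range (J + 1)).filter (fun j => m ≡ s.1 * (((∏ p ∈ s.2, p) - 1) / 2) + j
        [MOD s.1 * ∏ p ∈ s.2, p])) : ℝ) / ((J : ℝ) + 1)) =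
      ∑ n ∈ G, (∑ j ∈ (range (J + 1)).filter (fun j => n ∣ m - j), ww z f ((m - j) / n)) /
        ((J : ℝ) + 1) := by
  rw [sum_filter_of_ne (p := fun s : ℕ × Finset ℕ => f s.2 ≠ 0)
    (fun s _ h => fun hf => h (by rw [hf, zero_mul])), sum_product]
  apply sum_congr rfl
  intro n hn
  exact wls_inner J m z n f hJ (hG n hn)

private lemma wls_main (z : ℕ) (f : Finset ℕ → ℝ) (G : Finset ℕ) :
    ∑ s ∈ (G ×ˢ (PP z).powerset).filter (fun s => f s.2 ≠ 0),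
      f s.2 / ((s.1 * ∏ p ∈ s.2, p : ℕ) : ℝ) = mw z f * ∑ n ∈ G, 1 / (n : ℝ) := by
  rw [sum_filter_of_ne (p := fun s : ℕ × Finset ℕ => f s.2 ≠ 0)
    (fun s _ h => fun hf => h (by rw [hf, zero_div])), sum_product, mw, mul_sum]
  apply sum_congr rfl
  intro n _
  rw [sum_mul]
  apply sum_congr rfl
  intro d _
  rw [Nat.cast_mul, div_mul_div_comm, mul_one, mul_comm (n : ℝ)]

private lemma wls_harm (R : ℕ) : ∑ q ∈ Icc 2 R, 1 / (q : ℝ) ≤ 1 + Real.log R := by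
  have h := harmonic_le_one_add_log R
  rw [harmonic_eq_sum_Icc] at h
  push_cast at h
  refine le_trans ?_ h
  have h2 : ∑ q ∈ Icc 2 R, 1 / (q : ℝ) = ∑ q ∈ Icc 2 R, ((q : ℝ))⁻¹ :=
    sum_congr rfl (fun q _ => one_div _)
  rw [h2]
  apply sum_le_sum_of_subset_of_nonneg
  · intro q hq
    rw [mem_Icc] at hq ⊢
    omega
  · intro q _ _
    positivity

theorem wls (N J X₀ X z D : ℕ) (F : ℝ) (G M : Finset ℕ) (hG : G ⊆ Ioc N (8 * N))
    (hM : M ⊆ Ico X₀ (X₀ + X)) (hJ : ∀ m ∈ M, J < m) (f : Finset ℕ → ℝ) (hF : ∀ d, |f d| ≤ F)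
    (hD : ∀ d, f d ≠ 0 → ∏ p ∈ d, p ≤ D) (hN : 1 ≤ N) (hD1 : 1 ≤ D) :
    (∑ m ∈ M, ∑ n ∈ G, (∑ j ∈ (range (J + 1)).filter (fun j => n ∣ m - j),
        ww z f ((m - j) / n)) / ((J : ℝ) + 1) - #M * (mw z f * ∑ n ∈ G, 1 / (n : ℝ))) ^ 2 ≤
      8 * ((X : ℝ) + (8 * N * D) ^ 2) * #M / ((J : ℝ) + 1) *
        (64 * F ^ 2 * D ^ 2 * (1 + Real.log (8 * N * D))) := by
  classical
  have hF0 : 0 ≤ F := le_trans (abs_nonneg _) (hF ∅)
  have hG1 : ∀ n ∈ G, 1 ≤ n := by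
    intro n hn
    have := mem_Ioc.1 (hG hn)
    omega
  set S : Finset (ℕ × Finset ℕ) := (G ×ˢ (PP z).powerset).filter (fun s => f s.2 ≠ 0) with hS
  have hQ : ∀ s ∈ S, 1 ≤ s.1 * ∏ p ∈ s.2, p ∧ s.1 * ∏ p ∈ s.2, p ≤ 8 * N * D := by
    intro s hs
    obtain ⟨hs1, hs2⟩ := mem_filter.1 hs
    obtain ⟨hs3, hs4⟩ := mem_product.1 hs1
    have h1 := mem_Ioc.1 (hG hs3)
    have h2 : 1 ≤ ∏ p ∈ s.2, p := by
      apply Finset.one_le_prod'
      intro p hp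
      have := mem_powerset.1 hs4 hp
      exact (mem_filter.1 this).2.1.one_le
    refine ⟨Nat.one_le_iff_ne_zero.2 (Nat.mul_ne_zero (by omega) (by omega)), ?_⟩
    exact Nat.mul_le_mul h1.2 (hD s.2 hs2)
  have key := ls S (fun s => s.1 * ∏ p ∈ s.2, p) (fun s => s.1 * (((∏ p ∈ s.2, p) - 1) / 2))
    (fun s => f s.2) (8 * N * D) J X₀ X M hM hQ
  have e1 : ∑ m ∈ M, ∑ s ∈ S, f s.2 * ((#((range (J + 1)).filter (fun j =>
      m ≡ s.1 * (((∏ p ∈ s.2, p) - 1) / 2) + j [MOD s.1 * ∏ p ∈ s.2, p])) : ℝ) /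
        ((J : ℝ) + 1)) =
      ∑ m ∈ M, ∑ n ∈ G, (∑ j ∈ (range (J + 1)).filter (fun j => n ∣ m - j),
        ww z f ((m - j) / n)) / ((J : ℝ) + 1) := by
    apply sum_congr rfl
    intro m hm
    exact wls_count J m z f G (hJ m hm) hG1
  have e2 := wls_main z f G
  rw [← hS] at e2
  rw [e1, e2] at key
  refine le_trans key ?_
  have hcast : ((8 * N * D : ℕ) : ℝ) = 8 * (N : ℝ) * (D : ℝ) := by push_cast; ring
  rw [hcast]
  apply mul_le_mul_of_nonneg_left _ (by positivity)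
  have hq : ∀ q ∈ Icc 2 (8 * N * D), (q : ℝ) * (∑ s ∈ S.filter (fun s => q ∣ s.1 * ∏ p ∈ s.2, p),
      |f s.2| / ((s.1 * ∏ p ∈ s.2, p : ℕ) : ℝ)) ^ 2 ≤ 64 * F ^ 2 * D ^ 2 * (1 / (q : ℝ)) := by
    intro q hq
    have hq2 : 2 ≤ q := (mem_Icc.1 hq).1
    have hq0 : (0 : ℝ) < q := by exact_mod_cast (by omega : 0 < q)
    have h1 : ∑ s ∈ S.filter (fun s => q ∣ s.1 * ∏ p ∈ s.2, p),
        |f s.2| / ((s.1 * ∏ p ∈ s.2, p : ℕ) : ℝ) ≤ 8 * F * D / q := by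
      refine le_trans ?_ (aq N D q (by omega) G (PP z) hG
        (fun p hp => (mem_filter.1 hp).2.1) f F hF hD)
      apply sum_le_sum_of_subset_of_nonneg
      · intro s hs
        obtain ⟨h1, h2⟩ := mem_filter.1 hs
        exact mem_filter.2 ⟨(mem_filter.1 h1).1, h2⟩
      · intro s _ _
        positivity
    have h0 : 0 ≤ ∑ s ∈ S.filter (fun s => q ∣ s.1 * ∏ p ∈ s.2, p),
        |f s.2| / ((s.1 * ∏ p ∈ s.2, p : ℕ) : ℝ) := sum_nonneg (fun s _ => by positivity)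
    calc (q : ℝ) * (∑ s ∈ S.filter (fun s => q ∣ s.1 * ∏ p ∈ s.2, p),
          |f s.2| / ((s.1 * ∏ p ∈ s.2, p : ℕ) : ℝ)) ^ 2 ≤ (q : ℝ) * (8 * F * D / q) ^ 2 :=
          mul_le_mul_of_nonneg_left (pow_le_pow_left₀ h0 h1 2) hq0.le
      _ = 64 * F ^ 2 * D ^ 2 * (1 / (q : ℝ)) := by
          field_simp
          ring
  refine le_trans (sum_le_sum hq) ?_
  rw [← mul_sum]
  apply mul_le_mul_of_nonneg_left _ (by positivity)
  have h := wls_harm (8 * N * D)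
  rw [hcast] at h
  exact h

end PoolLS
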