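import Mathlib
import Pool.Agent.Work.MP_c971ef_nt.LS.Defs
import Pool.Agent.Work.MP_c971ef_nt.Rough
import Pool.Agent.Work.MP_70e905_nt.Mertens

set_option autoImplicit false

/-!
Module Mert (size S-M). Mertens bounds for the odd primes.

PROOF. (1) y < 2: the window [y, y²) ⊂ [1, 4) contains at most 2 and 3: the sum is ≤ 1/2 + 1/3 ≤ 8.
y ≥ 2: each p in [y, y²) has log p ≥ log y > 0, so ∑ 1/p ≤ (1/log y) ∑_{p < y²} log p/p ≤
(2 log y + log 4 + ..)/log y ≤ 8 (Mertens' first theorem `mA_le` of MP_c971ef_nt/Mertens.lean, with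
n = ⌊y²⌋; log 2 ≤ log y).
(2) lower: `prod_one_sub_ge` (MP_c971ef_nt/Rough.lean) with K = z - 1: the product over all p ≤ z - 1; the
product over odd primes is larger (the factor at 2 is 1/2 ≤ 1; drop it).
(3) upper: (∏_{p<z, p odd}(1-1/p))⁻¹ = (1/2)·... : ∏_{p<z} (1-1/p)^{-1} ≥ ∑_{n<z} 1/n ≥ log z (every n < z
is a product of primes < z; in Mathlib: `Nat.smoothNumbers`/`prod_primesBelow_tsum_eq_tsum_smoothNumbers`,
or find the bound in the repository, for example `grep -rn one_sub MP_34d05d_al MP_2dba45_nt MP_43ce8a_nt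
BV`), and the factor at 2 contributes 1/2: so ∏_{odd} (1-1/p) ≤ 2/log z.
-/

namespace PoolLS

open Finset

private lemma Mert_mem {z p : ℕ} (hp : p ∈ PP z) : p < z ∧ p.Prime ∧ p ≠ 2 := by
  rw [PP, mem_filter, mem_range] at hp
  exact hp

theorem win (z : ℕ) (y : ℝ) (hy : 1 ≤ y) :
    ∑ p ∈ (PP z).filter (fun p : ℕ => y ≤ (p : ℝ) ∧ (p : ℝ) < y ^ 2), (1 : ℝ) / p ≤ 8 := by
  rcases lt_or_ge y 2 with h2 | h2
  · have hsub : (PP z).filter (fun p : ℕ => y ≤ (p : ℝ) ∧ (p : ℝ) < y ^ 2) ⊆ {3} := by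
      intro p hp
      rw [mem_filter] at hp
      obtain ⟨hp1, hp2, hp3⟩ := hp
      obtain ⟨-, hp4, hp5⟩ := Mert_mem hp1
      have h4 : (p : ℝ) < 4 := by nlinarith
      have h5 : p < 4 := by exact_mod_cast h4
      have h6 := hp4.two_le
      rw [mem_singleton]
      omega
    calc ∑ p ∈ (PP z).filter (fun p : ℕ => y ≤ (p : ℝ) ∧ (p : ℝ) < y ^ 2), (1 : ℝ) / p
        ≤ ∑ p ∈ ({3} : Finset ℕ), (1 : ℝ) / (p : ℝ) :=
          Finset.sum_le_sum_of_subset_of_nonneg hsub fun p _ _ => by positivity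
      _ ≤ 8 := by
          rw [Finset.sum_singleton]
          norm_num
  · have hly : 0 < Real.log y := Real.log_pos (by linarith)
    have hl2 : Real.log 2 ≤ Real.log y := Real.log_le_log (by norm_num) h2
    have hn1 : 1 ≤ ⌊y ^ 2⌋₊ := by
      rw [Nat.one_le_floor_iff]
      nlinarith
    have hA := Pool.Agent.Work.MP_c971ef_nt.mA_le hn1
    have hlog : Real.log (⌊y ^ 2⌋₊ : ℝ) ≤ 2 * Real.log y := by
      have h3 : Real.log (⌊y ^ 2⌋₊ : ℝ) ≤ Real.log (y ^ 2) := by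
        apply Real.log_le_log
        · exact_mod_cast hn1
        · exact Nat.floor_le (by positivity)
      rw [Real.log_pow] at h3
      exact_mod_cast h3
    have hlog4 : Real.log 4 = 2 * Real.log 2 := by
      rw [show (4 : ℝ) = 2 ^ 2 by norm_num, Real.log_pow]
      norm_num
    have hstep : ∑ p ∈ (PP z).filter (fun p : ℕ => y ≤ (p : ℝ) ∧ (p : ℝ) < y ^ 2), (1 : ℝ) / p ≤
        (∑ p ∈ (Ioc 0 ⌊y ^ 2⌋₊).filter Nat.Prime, Real.log p / p) / Real.log y := by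
      rw [Finset.sum_div]
      calc ∑ p ∈ (PP z).filter (fun p : ℕ => y ≤ (p : ℝ) ∧ (p : ℝ) < y ^ 2), (1 : ℝ) / p
          ≤ ∑ p ∈ (PP z).filter (fun p : ℕ => y ≤ (p : ℝ) ∧ (p : ℝ) < y ^ 2),
              Real.log p / p / Real.log y := by
            apply Finset.sum_le_sum
            intro p hp
            rw [mem_filter] at hp
            have hpp := (Mert_mem hp.1).2.1.pos
            have hp0 : (0 : ℝ) < p := by exact_mod_cast hpp
            have h5 : Real.log y ≤ Real.log p := Real.log_le_log (by linarith) hp.2.1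
            rw [div_div, div_le_div_iff₀ hp0 (by positivity), one_mul]
            nlinarith
        _ ≤ _ := by
            apply Finset.sum_le_sum_of_subset_of_nonneg
            · intro p hp
              rw [mem_filter] at hp
              rw [mem_filter, mem_Ioc]
              refine ⟨⟨(Mert_mem hp.1).2.1.pos, ?_⟩, (Mert_mem hp.1).2.1⟩
              exact Nat.le_floor hp.2.2.le
            · intro p _ _
              exact div_nonneg (div_nonneg (Real.log_natCast_nonneg p) (Nat.cast_nonneg p)) hly.le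
    refine hstep.trans ?_
    rw [div_le_iff₀ hly]
    change Pool.Agent.Work.MP_c971ef_nt.mA ⌊y ^ 2⌋₊ ≤ _
    linarith

theorem prod_low : ∃ c : ℝ, 0 < c ∧ ∀ z : ℕ, 3 ≤ z →
    c / Real.log z ≤ ∏ p ∈ PP z, (1 - (1 : ℝ) / p) := by
  refine ⟨Real.exp (-9), Real.exp_pos _, fun z hz => ?_⟩
  have h1 := Pool.Agent.Work.MP_c971ef_nt.prod_one_sub_ge (K := z - 1) (by omega)
  have h2 : ((z - 1 : ℕ) : ℝ) + 1 = z := by
    rw [Nat.cast_sub (by omega)]
    push_cast
    ring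
  rw [h2] at h1
  refine h1.trans ?_
  have hsub : PP z ⊆ (Ioc 0 (z - 1)).filter Nat.Prime := by
    intro p hp
    obtain ⟨h3, h4, -⟩ := Mert_mem hp
    have := h4.pos
    rw [mem_filter, mem_Ioc]
    exact ⟨⟨this, by omega⟩, h4⟩
  rw [← Finset.prod_sdiff hsub]
  have hfac : ∀ p ∈ (Ioc 0 (z - 1)).filter Nat.Prime, 0 ≤ 1 - ((p : ℝ))⁻¹ ∧ 1 - ((p : ℝ))⁻¹ ≤ 1 := by
    intro p hp
    rw [mem_filter] at hp
    have h2 : (1 : ℝ) ≤ p := by exact_mod_cast hp.2.one_lt.le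
    have h3 : ((p : ℝ))⁻¹ ≤ 1 := inv_le_one_of_one_le₀ h2
    have h4 : 0 ≤ ((p : ℝ))⁻¹ := by positivity
    exact ⟨by linarith, by linarith⟩
  have h5 : ∏ p ∈ (Ioc 0 (z - 1)).filter Nat.Prime \ PP z, (1 - ((p : ℝ))⁻¹) ≤ 1 :=
    Finset.prod_le_one (fun p hp => (hfac p (mem_sdiff.1 hp).1).1)
      fun p hp => (hfac p (mem_sdiff.1 hp).1).2
  have h6 : 0 ≤ ∏ p ∈ PP z, (1 - ((p : ℝ))⁻¹) :=
    Finset.prod_nonneg fun p hp => (hfac p (hsub hp)).1
  calc (∏ p ∈ (Ioc 0 (z - 1)).filter Nat.Prime \ PP z, (1 - ((p : ℝ))⁻¹)) *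
        ∏ p ∈ PP z, (1 - ((p : ℝ))⁻¹)
      ≤ 1 * ∏ p ∈ PP z, (1 - ((p : ℝ))⁻¹) := mul_le_mul_of_nonneg_right h5 h6
    _ = ∏ p ∈ PP z, (1 - (1 : ℝ) / p) := by
        rw [one_mul]
        exact Finset.prod_congr rfl fun p _ => by rw [one_div]

theorem prod_up : ∃ C : ℝ, 0 < C ∧ ∀ z : ℕ, 3 ≤ z →
    ∏ p ∈ PP z, (1 - (1 : ℝ) / p) ≤ C / Real.log z := by
  refine ⟨2, by norm_num, fun z hz => ?_⟩
  have h1 := Pool.Agent.Work.MP_70e905_nt.prod_primesBelow_le z (by omega)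
  have h2 : Nat.primesBelow z = insert 2 (PP z) := by
    ext p
    rw [Nat.mem_primesBelow, mem_insert, PP, mem_filter, mem_range]
    constructor
    · rintro ⟨h3, h4⟩
      by_cases h5 : p = 2
      · exact Or.inl h5
      · exact Or.inr ⟨h3, h4, h5⟩
    · rintro (rfl | ⟨h3, h4, -⟩)
      · exact ⟨by omega, Nat.prime_two⟩
      · exact ⟨h3, h4⟩
  have h3 : 2 ∉ PP z := fun h => (Mert_mem h).2.2 rfl
  rw [h2, Finset.prod_insert h3] at h1
  have h4 : (2 : ℝ) / Real.log z = 2 * (1 / Real.log z) := by ring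
  rw [h4]
  push_cast at h1
  linarith

end PoolLS
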