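import Mathlib
import Pool.Agent.Work.MP_c971ef_nt.LS.Mert
import Pool.Agent.Work.MP_2dba45_nt.Sv.BHc

set_option autoImplicit false

/-!
Module Wts (size M). Brun-Hooley weights for `2k+1`.

PROOF. `Pool.Agent.Work.MP_2dba45_nt.Sv.brun_hooley 8` gives b₀; take its b := max b₀ 1, z, P = PP z,
g p = 1/p (p ≥ 3: g ≤ 1/3 ≤ 1/2; window sums: `win`). Let lp, dp be the weights, fp = lp,
fm = lp - dp (d ↦ lp d - dp d), exponent B = 4 b + 10. |fp| ≤ 1 ≤ z + 1, |fm| ≤ 1 + z. Supports: clear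
(the inequality (∏ : ℝ) ≤ (z : ℝ)^(4b+10) is an inequality of naturals). For every k, with B = BB z k ⊆ PP z:
the pair of inequalities of brun_hooley. Means (g p = 1/p, ∏ p ∈ d, g p = 1/∏ p ∈ d, p):
 lower weights: mw fm = ∑ lp ∏g - ∑ dp ∏g ≥ (1 - exp(-b)) ∏(1-g) ≥ (1/2) c/log z (b ≥ 1, `prod_low`);
 upper weights: average the inequality ∑_{d ⊆ B} lp d - 1[B = ∅] ≤ ∑_{d ⊆ B} dp d over the product measure
 (`svfl_swap`-type identity: ∑_{B ⊆ P} (∏_{B} g ∏_{P∖B} (1-g)) ∑_{d ⊆ B} f d = ∑_d f d ∏_{d} g; it is private in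
 MP_43ce8a_nt/D/SvFL.lean, copy it) : ∑ lp ∏g ≤ ∏(1-g) + ∑ dp ∏g ≤ 2 ∏ (1-g) ≤ 2 C/log z (`prod_up`).
-/

namespace PoolLS

open Finset

private theorem wts_mu (P : Finset ℕ) (g : ℕ → ℝ) {d : Finset ℕ} (hd : d ⊆ P) :
    ∑ B ∈ P.powerset, (if d ⊆ B then (∏ p ∈ B, g p) * ∏ p ∈ P \ B, (1 - g p) else 0) =
      ∏ p ∈ d, g p := by
  classical
  have h1 := Finset.prod_add g (fun i => if i ∈ d then (0 : ℝ) else 1 - g i) P
  have h2 : ∏ i ∈ P, (g i + (if i ∈ d then (0 : ℝ) else 1 - g i)) = ∏ p ∈ d, g p := by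
    have h3 : ∀ i ∈ P, (g i + (if i ∈ d then (0 : ℝ) else 1 - g i)) =
        if i ∈ d then g i else 1 := by
      intro i _
      split_ifs
      · ring
      · ring
    rw [Finset.prod_congr rfl h3, ← Finset.prod_filter]
    congr 1
    ext i
    rw [Finset.mem_filter]
    exact ⟨fun h => h.2, fun h => ⟨hd h, h⟩⟩
  rw [← h2, h1]
  apply Finset.sum_congr rfl
  intro B hB
  split_ifs with hdB
  · congr 1
    apply Finset.prod_congr rfl
    intro i hi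
    rw [Finset.mem_sdiff] at hi
    rw [if_neg (fun h => hi.2 (hdB h))]
  · symm
    apply mul_eq_zero_of_right
    rw [Finset.not_subset] at hdB
    obtain ⟨i, hid, hiB⟩ := hdB
    exact Finset.prod_eq_zero (Finset.mem_sdiff.2 ⟨hd hid, hiB⟩) (if_pos hid)

private theorem wts_swap (P : Finset ℕ) (g : ℕ → ℝ) (f : Finset ℕ → ℝ) :
    ∑ B ∈ P.powerset, ((∏ p ∈ B, g p) * ∏ p ∈ P \ B, (1 - g p)) * ∑ d ∈ B.powerset, f d =
      ∑ d ∈ P.powerset, f d * ∏ p ∈ d, g p := by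
  classical
  have h1 : ∀ B ∈ P.powerset, ((∏ p ∈ B, g p) * ∏ p ∈ P \ B, (1 - g p)) *
      ∑ d ∈ B.powerset, f d = ∑ d ∈ P.powerset, f d *
        (if d ⊆ B then (∏ p ∈ B, g p) * ∏ p ∈ P \ B, (1 - g p) else 0) := by
    intro B hB
    rw [Finset.mem_powerset] at hB
    rw [Finset.mul_sum]
    have h2 : B.powerset = P.powerset.filter (fun d => d ⊆ B) := by
      ext d
      rw [Finset.mem_filter, Finset.mem_powerset, Finset.mem_powerset]
      exact ⟨fun h => ⟨h.trans hB, h⟩, fun h => h.2⟩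
    rw [h2, Finset.sum_filter]
    apply Finset.sum_congr rfl
    intro d _
    split_ifs
    · ring
    · ring
  rw [Finset.sum_congr rfl h1, Finset.sum_comm]
  apply Finset.sum_congr rfl
  intro d hd
  rw [Finset.mem_powerset] at hd
  rw [← Finset.mul_sum, wts_mu P g hd]

/-- the upper bound of the mean of the upper weights -/
private theorem wts_up (P : Finset ℕ) (g : ℕ → ℝ) (hg : ∀ p ∈ P, 0 ≤ g p ∧ g p ≤ 1)
    (lp dp : Finset ℕ → ℝ)
    (h : ∀ B ⊆ P, ∑ d ∈ B.powerset, lp d - (if B = ∅ then (1 : ℝ) else 0) ≤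
      ∑ d ∈ B.powerset, dp d) :
    ∑ d ∈ P.powerset, lp d * ∏ p ∈ d, g p ≤
      ∏ p ∈ P, (1 - g p) + ∑ d ∈ P.powerset, dp d * ∏ p ∈ d, g p := by
  classical
  rw [← wts_swap P g lp, ← wts_swap P g dp]
  have h1 : ∏ p ∈ P, (1 - g p) = ∑ B ∈ P.powerset,
      ((∏ p ∈ B, g p) * ∏ p ∈ P \ B, (1 - g p)) * (if B = ∅ then (1 : ℝ) else 0) := by
    rw [Finset.sum_eq_single_of_mem ∅ (Finset.empty_mem_powerset P)]
    · simp
    · intro B _ hB
      rw [if_neg hB, mul_zero]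
  rw [h1, ← Finset.sum_add_distrib]
  apply Finset.sum_le_sum
  intro B hB
  rw [Finset.mem_powerset] at hB
  rw [← mul_add]
  apply mul_le_mul_of_nonneg_left
  · have := h B hB
    linarith
  · apply mul_nonneg
    · exact Finset.prod_nonneg fun p hp => (hg p (hB hp)).1
    · exact Finset.prod_nonneg fun p hp => by
        have := (hg p (Finset.mem_sdiff.1 hp).1).2
        linarith

private theorem wts_mw (z : ℕ) (f : Finset ℕ → ℝ) :
    mw z f = ∑ d ∈ (PP z).powerset, f d * ∏ p ∈ d, (1 / (p : ℝ)) := by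
  unfold mw
  apply Finset.sum_congr rfl
  intro d _
  rw [Nat.cast_prod, Finset.prod_div_distrib, Finset.prod_const_one, mul_one_div]

theorem weights : ∃ (B : ℕ) (c C : ℝ), 0 < c ∧ 0 < C ∧ ∀ z : ℕ, 3 ≤ z →
    ∃ fp fm : Finset ℕ → ℝ, (∀ d, |fp d| ≤ (z : ℝ) + 1 ∧ |fm d| ≤ (z : ℝ) + 1) ∧
      (∀ d, fp d ≠ 0 ∨ fm d ≠ 0 → ∏ p ∈ d, p ≤ z ^ B) ∧
      (∀ k, 0 ≤ ww z fp k ∧ (BB z k = ∅ → 1 ≤ ww z fp k)) ∧
      (∀ k, BB z k ≠ ∅ → ww z fm k ≤ 0) ∧
      mw z fp ≤ C / Real.log z ∧ c / Real.log z ≤ mw z fm := by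
  obtain ⟨b₀, hBH⟩ := Pool.Agent.Work.MP_2dba45_nt.Sv.brun_hooley 8 (by norm_num)
  obtain ⟨c, hc, hlow⟩ := prod_low
  obtain ⟨C, hC, hup⟩ := prod_up
  refine ⟨4 * (max b₀ 1) + 10, c / 2, 2 * C, by positivity, by positivity, ?_⟩
  intro z hz
  have hP : ∀ p ∈ PP z, 2 ≤ p ∧ p < z := by
    intro p hp
    obtain ⟨h1, h2, h3⟩ := mem_filter.1 hp
    exact ⟨h2.two_le, mem_range.1 h1⟩
  have hg : ∀ p ∈ PP z, 0 ≤ (1 / (p : ℝ)) ∧ (1 / (p : ℝ)) ≤ 1 / 2 := by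
    intro p hp
    refine ⟨by positivity, ?_⟩
    exact one_div_le_one_div_of_le (by norm_num) (by exact_mod_cast (hP p hp).1)
  obtain ⟨lp, dp, h1, h2, h3, h4, h5, h6⟩ := hBH (max b₀ 1) (le_max_left _ _) z (PP z)
    (fun p => 1 / (p : ℝ)) (by omega) hP hg (fun y hy => win z y hy)
  have hBP : ∀ k, BB z k ⊆ PP z := fun k => filter_subset _ _
  have hVpos : 0 ≤ ∏ p ∈ PP z, (1 - (1 : ℝ) / p) :=
    Finset.prod_nonneg fun p hp => by linarith [(hg p hp).2]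
  have hexp : Real.exp (-((max b₀ 1 : ℕ) : ℝ)) ≤ 1 / 2 := by
    have h7 : (1 : ℝ) ≤ ((max b₀ 1 : ℕ) : ℝ) := by exact_mod_cast le_max_right b₀ 1
    have h8 : Real.exp (-((max b₀ 1 : ℕ) : ℝ)) ≤ Real.exp (-1) :=
      Real.exp_le_exp.2 (by linarith)
    have h9 : Real.exp (-1) ≤ 1 / 2 := by
      rw [Real.exp_neg, inv_eq_one_div]
      apply one_div_le_one_div_of_le (by norm_num)
      have := Real.add_one_le_exp (1 : ℝ)
      linarith
    exact h8.trans h9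
  refine ⟨lp, fun d => lp d - dp d, ?_, ?_, ?_, ?_, ?_, ?_⟩
  · intro d
    constructor
    · have := h1 d
      have hz0 : (0 : ℝ) ≤ z := Nat.cast_nonneg z
      linarith
    · calc |lp d - dp d| ≤ |lp d| + |dp d| := abs_sub _ _
        _ ≤ 1 + z := add_le_add (h1 d) (h2 d)
        _ = (z : ℝ) + 1 := add_comm _ _
  · intro d hd
    have h7 : lp d ≠ 0 ∨ dp d ≠ 0 := by
      by_contra h8
      push Not at h8
      rcases hd with h9 | h9
      · exact h9 h8.1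
      · apply h9
        simp only [h8.1, h8.2, sub_zero]
    have h8 := (h3 d h7).2
    exact_mod_cast h8
  · intro k
    have h7 := (h4 (BB z k) (hBP k)).1
    unfold ww
    constructor
    · refine le_trans ?_ h7
      split_ifs <;> norm_num
    · intro hB
      rw [if_pos hB] at h7
      exact h7
  · intro k hk
    have h7 := (h4 (BB z k) (hBP k)).2
    rw [if_neg hk] at h7
    unfold ww
    rw [Finset.sum_sub_distrib]
    linarith
  · rw [wts_mw]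
    have h7 := wts_up (PP z) (fun p => 1 / (p : ℝ))
      (fun p hp => ⟨(hg p hp).1, (hg p hp).2.trans (by norm_num)⟩) lp dp
      (fun B hB => (h4 B hB).2)
    have h8 := hup z hz
    have h9 : Real.exp (-((max b₀ 1 : ℕ) : ℝ)) * ∏ p ∈ PP z, (1 - (1 : ℝ) / p) ≤
        1 / 2 * ∏ p ∈ PP z, (1 - (1 : ℝ) / p) := mul_le_mul_of_nonneg_right hexp hVpos
    rw [mul_div_assoc]
    linarith
  · rw [wts_mw]
    have h8 := hlow z hz
    have h9 : Real.exp (-((max b₀ 1 : ℕ) : ℝ)) * ∏ p ∈ PP z, (1 - (1 : ℝ) / p) ≤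
        1 / 2 * ∏ p ∈ PP z, (1 - (1 : ℝ) / p) := mul_le_mul_of_nonneg_right hexp hVpos
    have h10 : ∑ d ∈ (PP z).powerset, (lp d - dp d) * ∏ p ∈ d, (1 / (p : ℝ)) =
        ∑ d ∈ (PP z).powerset, lp d * ∏ p ∈ d, (1 / (p : ℝ)) -
          ∑ d ∈ (PP z).powerset, dp d * ∏ p ∈ d, (1 / (p : ℝ)) := by
      rw [← Finset.sum_sub_distrib]
      apply Finset.sum_congr rfl
      intro d _
      rw [sub_mul]
    rw [h10]
    have h11 : c / 2 / Real.log z = 1 / 2 * (c / Real.log z) := by ring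
    rw [h11]
    linarith

end PoolLS
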