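import Mathlib
import Pool.Agent.Work.MP_c971ef_nt.LS.Defs
import Pool.Agent.Work.BV.PIV

set_option autoImplicit false

/-!
Module Klow (size S-M). Many k in (Y, 2Y] with 2k+1 prime.

PROOF. `BV.pnt_all` (see BV/PIV.lean; BV.PNT says π(N) log N/N → 1). The k in (Y, 2Y] with 2k+1 prime
correspond to the odd primes in (2Y+1, 4Y+1], i.e. their number is π(4Y+1) - π(2Y+1) ≥ (1 - ε)(4Y)/log(4Y+1)
- (1+ε)(2Y+1)/log(2Y+1) ≥ Y/(4 log Y) for large Y (anything positive suffices), and each has 1/k ≥ 1/(2Y).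
So ∑ 1/k ≥ c/log Y.
-/

namespace PoolLS

open Finset

private lemma Klow_card {Y : ℕ} (hY : 1 ≤ Y) :
    Nat.primeCounting (4 * Y + 1) ≤ Nat.primeCounting (2 * Y + 1) +
      ((Ioc Y (2 * Y)).filter (fun k => (2 * k + 1).Prime)).card := by
  classical
  unfold Nat.primeCounting Nat.primeCounting'
  rw [Nat.count_eq_card_filter_range, Nat.count_eq_card_filter_range]
  have hsub : (range (4 * Y + 1 + 1)).filter Nat.Prime ⊆ (range (2 * Y + 1 + 1)).filter Nat.Prime ∪
      ((Ioc Y (2 * Y)).filter (fun k => (2 * k + 1).Prime)).image (fun k => 2 * k + 1) := by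
    intro p hp
    rw [mem_filter, mem_range] at hp
    rw [mem_union, mem_filter, mem_range, mem_image]
    by_cases h : p < 2 * Y + 1 + 1
    · exact Or.inl ⟨h, hp.2⟩
    · right
      have hodd : Odd p := hp.2.odd_of_ne_two (by omega)
      obtain ⟨k, rfl⟩ := hodd
      refine ⟨k, ?_, rfl⟩
      rw [mem_filter, mem_Ioc]
      exact ⟨⟨by omega, by omega⟩, hp.2⟩
  refine (Finset.card_le_card hsub).trans ((Finset.card_union_le _ _).trans ?_)
  exact Nat.add_le_add_left Finset.card_image_le _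

theorem klow : ∃ (c : ℝ) (Y₀ : ℕ), 0 < c ∧ ∀ Y : ℕ, Y₀ ≤ Y →
    c / Real.log Y ≤ ∑ k ∈ (Ioc Y (2 * Y)).filter (fun k => (2 * k + 1).Prime), 1 / (k : ℝ) := by
  classical
  have hpnt := BV.pnt_all
  unfold BV.PNT at hpnt
  have hev := (Metric.tendsto_atTop.1 hpnt) (1 / 10) (by norm_num)
  obtain ⟨X, hX⟩ := hev
  refine ⟨1 / 4, max X (5 ^ 10), by norm_num, fun Y hY => ?_⟩
  have hYX : X ≤ Y := le_trans (le_max_left _ _) hY
  have hY5 : 5 ^ 10 ≤ Y := le_trans (le_max_right _ _) hY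
  have hY5' : ((5 : ℝ) ^ 10) ≤ (Y : ℝ) := by exact_mod_cast hY5
  have hYpos : (0 : ℝ) < Y := lt_of_lt_of_le (by positivity) hY5'
  have hYbig : (100 : ℝ) ≤ Y := le_trans (by norm_num) hY5'
  have hlog5 : (1 : ℝ) ≤ Real.log 5 := by
    rw [Real.le_log_iff_exp_le (by norm_num)]
    have := Real.exp_one_lt_d9
    linarith
  have hL : 10 * Real.log 5 ≤ Real.log Y := by
    have h := Real.log_le_log (by positivity) hY5'
    rw [Real.log_pow] at h
    exact_mod_cast h
  have hLpos : 0 < Real.log Y := by linarith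
  -- the two values
  have h4 := hX (4 * Y + 1) (by omega)
  have h2 := hX (2 * Y + 1) (by omega)
  rw [Real.dist_eq, abs_lt] at h4 h2
  have hc4 : ((4 * Y + 1 : ℕ) : ℝ) = 4 * Y + 1 := by push_cast; ring
  have hc2 : ((2 * Y + 1 : ℕ) : ℝ) = 2 * Y + 1 := by push_cast; ring
  rw [hc4] at h4
  rw [hc2] at h2
  have hlog4 : Real.log (4 * Y + 1) ≤ 11 / 10 * Real.log Y := by
    have h : Real.log (4 * (Y : ℝ) + 1) ≤ Real.log (5 * Y) := by
      apply Real.log_le_log (by positivity)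
      linarith
    rw [Real.log_mul (by norm_num) hYpos.ne'] at h
    linarith
  have hlog2 : Real.log Y ≤ Real.log (2 * Y + 1) := by
    apply Real.log_le_log hYpos
    linarith
  have hlog4pos : 0 < Real.log (4 * (Y : ℝ) + 1) := Real.log_pos (by linarith)
  have hlog2pos : 0 < Real.log (2 * (Y : ℝ) + 1) := Real.log_pos (by linarith)
  set P4 : ℝ := (Nat.primeCounting (4 * Y + 1) : ℝ) with hP4
  set P2 : ℝ := (Nat.primeCounting (2 * Y + 1) : ℝ) with hP2
  have hP2n : 0 ≤ P2 := Nat.cast_nonneg _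
  have hP4n : 0 ≤ P4 := Nat.cast_nonneg _
  -- lower bound for P4
  have e4 : 9 / 10 * (4 * Y + 1) ≤ P4 * (11 / 10 * Real.log Y) := by
    have h : 9 / 10 ≤ P4 * Real.log (4 * Y + 1) / (4 * Y + 1) := by linarith [h4.1]
    rw [le_div_iff₀ (by positivity)] at h
    exact h.trans (mul_le_mul_of_nonneg_left hlog4 hP4n)
  have e2 : P2 * Real.log Y ≤ 11 / 10 * (2 * Y + 1) := by
    have h : P2 * Real.log (2 * Y + 1) / (2 * Y + 1) ≤ 11 / 10 := by linarith [h2.2]
    rw [div_le_iff₀ (by positivity)] at h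
    exact (mul_le_mul_of_nonneg_left hlog2 hP2n).trans h
  have hcard : P4 ≤ P2 + (((Ioc Y (2 * Y)).filter (fun k => (2 * k + 1).Prime)).card : ℝ) := by
    have h := Klow_card (Y := Y) (by omega)
    rw [hP4, hP2, ← Nat.cast_add]
    exact Nat.cast_le.2 h
  set R : ℝ := (((Ioc Y (2 * Y)).filter (fun k => (2 * k + 1).Prime)).card : ℝ) with hR
  have hRlow : 1 / 2 * Y ≤ R * Real.log Y := by
    have h5 : (P4 - P2) * Real.log Y ≤ R * Real.log Y :=
      mul_le_mul_of_nonneg_right (by linarith) hLpos.le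
    nlinarith
  have hsum : R * (1 / (2 * Y)) ≤
      ∑ k ∈ (Ioc Y (2 * Y)).filter (fun k => (2 * k + 1).Prime), 1 / (k : ℝ) := by
    rw [hR, ← nsmul_eq_mul]
    apply Finset.card_nsmul_le_sum
    intro k hk
    rw [mem_filter, mem_Ioc] at hk
    have hk0 : (0 : ℝ) < k := by
      have : 0 < k := by omega
      exact_mod_cast this
    have hk2 : (k : ℝ) ≤ 2 * Y := by exact_mod_cast hk.1.2
    exact one_div_le_one_div_of_le hk0 hk2
  refine le_trans ?_ hsum
  rw [div_le_iff₀ hLpos]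
  have h6 : R * (1 / (2 * Y)) * Real.log Y = R * Real.log Y / (2 * Y) := by ring
  rw [h6, le_div_iff₀ (by positivity)]
  linarith

end PoolLS
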