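import Mathlib
import Pool.Agent.Work.MP_c971ef_nt.LS.Ls

set_option autoImplicit false

/-!
Module Kls (size S-M). The large sieve with moduli k.

PROOF. Apply `ls` with S = K, Q k = k, r k = 0, c k = 1, R = 2 Y. For m ∈ M, j ≤ J < m:
m ≡ 0 + j mod k iff k | m - j. A_q = ∑_{k ∈ K, q | k} 1/k ≤ (2Y/q)/Y = 2/q (at most 2Y/q multiples of q up
to 2Y, each term ≤ 1/Y), so ∑_{q=2}^{2Y} q A_q² ≤ 4 ∑ 1/q ≤ 4 (1 + log (2Y)).
-/

namespace PoolLS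

open Finset

private theorem kls_aq (Y q : ℕ) (K : Finset ℕ) (hK : K ⊆ Ioc Y (2 * Y)) (hY : 1 ≤ Y)
    (hq : 2 ≤ q) : ∑ k ∈ K.filter (fun k => q ∣ k), |(1 : ℝ)| / (k : ℝ) ≤ 2 / q := by
  have hYr : (0 : ℝ) < Y := by exact_mod_cast hY
  have hqr : (0 : ℝ) < q := by exact_mod_cast (by omega : 0 < q)
  have h1 : ∀ k ∈ K.filter (fun k => q ∣ k), |(1 : ℝ)| / (k : ℝ) ≤ 1 / (Y : ℝ) := by
    intro k hk
    have hk' := mem_Ioc.1 (hK (mem_filter.1 hk).1)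
    rw [abs_one]
    exact one_div_le_one_div_of_le hYr (by exact_mod_cast hk'.1.le)
  have h2 : (#(K.filter (fun k => q ∣ k)) : ℝ) ≤ 2 * Y / q := by
    have h3 : K.filter (fun k => q ∣ k) ⊆ (Ioc 0 (2 * Y)).filter (fun k => q ∣ k) := by
      intro k hk
      rw [mem_filter] at hk ⊢
      have hk' := mem_Ioc.1 (hK hk.1)
      exact ⟨mem_Ioc.2 ⟨by omega, hk'.2⟩, hk.2⟩
    have h4 := card_le_card h3
    rw [Nat.Ioc_filter_dvd_card_eq_div] at h4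
    calc (#(K.filter (fun k => q ∣ k)) : ℝ) ≤ ((2 * Y / q : ℕ) : ℝ) := by exact_mod_cast h4
      _ ≤ ((2 * Y : ℕ) : ℝ) / q := Nat.cast_div_le
      _ = 2 * Y / q := by push_cast; ring
  calc ∑ k ∈ K.filter (fun k => q ∣ k), |(1 : ℝ)| / (k : ℝ)
      ≤ #(K.filter (fun k => q ∣ k)) • (1 / (Y : ℝ)) := sum_le_card_nsmul _ _ _ h1
    _ = #(K.filter (fun k => q ∣ k)) * (1 / (Y : ℝ)) := by rw [nsmul_eq_mul]
    _ ≤ 2 * Y / q * (1 / (Y : ℝ)) := mul_le_mul_of_nonneg_right h2 (by positivity)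
    _ = 2 / q := by field_simp

private theorem kls_sum (Y : ℕ) (K : Finset ℕ) (hK : K ⊆ Ioc Y (2 * Y)) (hY : 1 ≤ Y) :
    ∑ q ∈ Icc 2 (2 * Y), (q : ℝ) * (∑ k ∈ K.filter (fun k => q ∣ k), |(1 : ℝ)| / (k : ℝ)) ^ 2 ≤
      4 * (1 + Real.log (2 * Y)) := by
  have h1 : ∀ q ∈ Icc 2 (2 * Y), (q : ℝ) *
      (∑ k ∈ K.filter (fun k => q ∣ k), |(1 : ℝ)| / (k : ℝ)) ^ 2 ≤ 4 * ((q : ℝ))⁻¹ := by
    intro q hq
    have hq2 := (mem_Icc.1 hq).1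
    have hqr : (0 : ℝ) < q := by exact_mod_cast (by omega : 0 < q)
    have h2 := kls_aq Y q K hK hY hq2
    have h3 : 0 ≤ ∑ k ∈ K.filter (fun k => q ∣ k), |(1 : ℝ)| / (k : ℝ) :=
      sum_nonneg fun k _ => by positivity
    calc (q : ℝ) * (∑ k ∈ K.filter (fun k => q ∣ k), |(1 : ℝ)| / (k : ℝ)) ^ 2
        ≤ (q : ℝ) * (2 / q) ^ 2 :=
          mul_le_mul_of_nonneg_left (pow_le_pow_left₀ h3 h2 2) hqr.le
      _ = 4 * ((q : ℝ))⁻¹ := by field_simp; norm_num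
  have h2 : ∑ q ∈ Icc 2 (2 * Y), ((q : ℝ))⁻¹ ≤ 1 + Real.log (2 * Y) := by
    have h3 : ∑ q ∈ Icc 2 (2 * Y), ((q : ℝ))⁻¹ ≤ ∑ q ∈ Icc 1 (2 * Y), ((q : ℝ))⁻¹ :=
      sum_le_sum_of_subset_of_nonneg
        (Icc_subset_Icc_left (by norm_num)) (fun q _ _ => by positivity)
    refine h3.trans ?_
    have h4 := harmonic_le_one_add_log (2 * Y)
    rw [harmonic_eq_sum_Icc] at h4
    push_cast at h4
    exact h4
  calc ∑ q ∈ Icc 2 (2 * Y), (q : ℝ) *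
        (∑ k ∈ K.filter (fun k => q ∣ k), |(1 : ℝ)| / (k : ℝ)) ^ 2
      ≤ ∑ q ∈ Icc 2 (2 * Y), 4 * ((q : ℝ))⁻¹ := sum_le_sum h1
    _ = 4 * ∑ q ∈ Icc 2 (2 * Y), ((q : ℝ))⁻¹ := by rw [mul_sum]
    _ ≤ 4 * (1 + Real.log (2 * Y)) := by linarith

theorem kls (Y J X₀ X : ℕ) (K M : Finset ℕ) (hK : K ⊆ Ioc Y (2 * Y)) (hM : M ⊆ Ico X₀ (X₀ + X))
    (hJ : ∀ m ∈ M, J < m) (hY : 1 ≤ Y) :
    (∑ m ∈ M, ∑ k ∈ K, (#((range (J + 1)).filter (fun j => k ∣ m - j)) : ℝ) / ((J : ℝ) + 1) -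
        #M * ∑ k ∈ K, 1 / (k : ℝ)) ^ 2 ≤
      8 * ((X : ℝ) + (2 * Y) ^ 2) * #M / ((J : ℝ) + 1) * (4 * (1 + Real.log (2 * Y))) := by
  have h1 := ls K (fun k => k) (fun _ => 0) (fun _ => (1 : ℝ)) (2 * Y) J X₀ X M hM (by
    intro k hk
    have hk' := mem_Ioc.1 (hK hk)
    exact ⟨by omega, hk'.2⟩)
  have h2 : ∀ m ∈ M, ∀ k ∈ K, (1 : ℝ) *
      ((#((range (J + 1)).filter (fun j => m ≡ 0 + j [MOD k])) : ℝ) / ((J : ℝ) + 1)) =
      (#((range (J + 1)).filter (fun j => k ∣ m - j)) : ℝ) / ((J : ℝ) + 1) := by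
    intro m hm k _
    have h3 : (range (J + 1)).filter (fun j => m ≡ 0 + j [MOD k]) =
        (range (J + 1)).filter (fun j => k ∣ m - j) := by
      apply filter_congr
      intro j hj
      have hjm : j ≤ m := by
        have := hJ m hm
        have := mem_range.1 hj
        omega
      rw [zero_add]
      constructor
      · intro h
        exact (Nat.modEq_iff_dvd' hjm).1 h.symm
      · intro h
        exact ((Nat.modEq_iff_dvd' hjm).2 h).symm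
    rw [h3, one_mul]
  have h4 : ∑ m ∈ M, ∑ k ∈ K, (1 : ℝ) *
      ((#((range (J + 1)).filter (fun j => m ≡ 0 + j [MOD k])) : ℝ) / ((J : ℝ) + 1)) =
      ∑ m ∈ M, ∑ k ∈ K, (#((range (J + 1)).filter (fun j => k ∣ m - j)) : ℝ) / ((J : ℝ) + 1) :=
    sum_congr rfl fun m hm => sum_congr rfl fun k hk => h2 m hm k hk
  rw [h4] at h1
  refine h1.trans ?_
  push_cast
  have h5 : 0 ≤ 8 * ((X : ℝ) + (2 * Y) ^ 2) * #M / ((J : ℝ) + 1) := by positivity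
  exact mul_le_mul_of_nonneg_left (kls_sum Y K hK hY) h5

end PoolLS
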