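import Mathlib
import Pool.Agent.Work.MP_c971ef_nt.LS.Defs

set_option autoImplicit false

/-!
Module Pig (size S-M). Dyadic pigeonhole.

PROOF. Suppose not: #(M ∩ (X, 2X+1]) < η X/8 for all X with η X₁/8 ≤ X ≤ X₁. Claim, by strong induction on
X ≤ X₁: #(M ∩ Icc 1 X) ≤ η X₁/4 + 1 + η X/4. Put X' = X/2 (natural division; X = 0 trivial): (X', X] ⊆
(X', 2X'+1]. If X' ≥ η X₁/8: #(M ∩ Icc 1 X) ≤ η X₁/4 + 1 + η X'/4 + η X'/8 ≤ η X₁/4 + 1 + η X/4
(X' ≤ X/2). If X' < η X₁/8: X ≤ 2X' + 1 ≤ η X₁/4 + 1 and #(M ∩ Icc 1 X) ≤ X. With X = X₁: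
η X₁ ≤ #M ≤ η X₁/2 + 1, so η X₁ ≤ 2, a contradiction.
-/

namespace PoolLS

open Finset

theorem pig (X₁ : ℕ) (η : ℝ) (hη : 0 < η) (hη1 : η ≤ 1) (h8 : 8 ≤ η * X₁) (M : Finset ℕ)
    (hM : M ⊆ Icc 1 X₁) (hc : η * X₁ ≤ #M) :
    ∃ X : ℕ, X ≤ X₁ ∧ η * X₁ / 8 ≤ X ∧ η * X / 8 ≤ (#(M.filter (fun m => X < m ∧ m ≤ 2 * X + 1)) : ℝ) := by
  by_contra hcon
  push Not at hcon
  have key : ∀ X : ℕ, X ≤ X₁ →
      (#(M.filter (fun m => m ≤ X)) : ℝ) ≤ η * X₁ / 4 + 1 + η * X / 4 := by
    intro X
    induction X using Nat.strong_induction_on with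
    | _ X ih =>
      intro hX
      rcases Nat.eq_zero_or_pos X with h0 | hpos
      · subst h0
        have he : M.filter (fun m => m ≤ 0) = ∅ := by
          apply Finset.filter_eq_empty_iff.mpr
          intro m hm hm0
          have := (Finset.mem_Icc.mp (hM hm)).1
          omega
        rw [he]
        simp only [Finset.card_empty, Nat.cast_zero, mul_zero, zero_div, add_zero]
        linarith
      · have hlt : X / 2 < X := Nat.div_lt_self hpos (by norm_num)
        have h2 : X ≤ 2 * (X / 2) + 1 := by omega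
        have h3 : ((X / 2 : ℕ) : ℝ) ≤ X / 2 := Nat.cast_div_le
        by_cases hb : η * X₁ / 8 ≤ ((X / 2 : ℕ) : ℝ)
        · have h4 := hcon (X / 2) (by omega) hb
          have h5 := ih (X / 2) hlt (by omega)
          have h6 : M.filter (fun m => m ≤ X) ⊆ M.filter (fun m => m ≤ X / 2) ∪
              M.filter (fun m => X / 2 < m ∧ m ≤ 2 * (X / 2) + 1) := by
            intro m hm
            rw [Finset.mem_filter] at hm
            rw [Finset.mem_union, Finset.mem_filter, Finset.mem_filter]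
            by_cases hmm : m ≤ X / 2
            · exact Or.inl ⟨hm.1, hmm⟩
            · exact Or.inr ⟨hm.1, by omega, by omega⟩
          have h7 := (Finset.card_le_card h6).trans (Finset.card_union_le _ _)
          have h8' : (#(M.filter (fun m => m ≤ X)) : ℝ) ≤ #(M.filter (fun m => m ≤ X / 2)) +
              #(M.filter (fun m => X / 2 < m ∧ m ≤ 2 * (X / 2) + 1)) := by
            exact_mod_cast h7
          have h9 : η * ((X / 2 : ℕ) : ℝ) ≤ η * (X / 2) := mul_le_mul_of_nonneg_left h3 hη.le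
          have h10 : 0 ≤ η * (X : ℝ) := by positivity
          linarith
        · push Not at hb
          have h6 : M.filter (fun m => m ≤ X) ⊆ Icc 1 X := by
            intro m hm
            rw [Finset.mem_filter] at hm
            exact Finset.mem_Icc.mpr ⟨(Finset.mem_Icc.mp (hM hm.1)).1, hm.2⟩
          have h7 := Finset.card_le_card h6
          rw [Nat.card_Icc] at h7
          have h8' : (#(M.filter (fun m => m ≤ X)) : ℝ) ≤ X := by
            exact_mod_cast (by omega : #(M.filter (fun m => m ≤ X)) ≤ X)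
          have h9 : (X : ℝ) ≤ 2 * ((X / 2 : ℕ) : ℝ) + 1 := by exact_mod_cast h2
          have h10 : 0 ≤ η * (X : ℝ) := by positivity
          linarith
  have h := key X₁ le_rfl
  have he : M.filter (fun m => m ≤ X₁) = M := by
    apply Finset.filter_true_of_mem
    intro m hm
    exact (Finset.mem_Icc.mp (hM hm)).2
  rw [he] at h
  linarith

end PoolLS
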