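import Mathlib
import Pool.Agent.Work.MP_c971ef_nt.LS.A
import Pool.Agent.Work.MP_c971ef_nt.LS.Kls
import Pool.Agent.Work.MP_c971ef_nt.LS.Klow
import Pool.Agent.Work.MP_c971ef_nt.LS.Pig

set_option autoImplicit false

/-!
Assembly of the second part: `2k+1` prime, a positive proportion of the `n`.
-/

namespace PoolLS

open Finset

/-- a lower bound from a second moment -/
theorem low_of_sq (S w μ ε E : ℝ) (hw : 0 ≤ w) (hε : 0 ≤ ε) (h : (S - w * μ) ^ 2 ≤ E)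
    (hE : E ≤ (w * ε) ^ 2) : w * (μ - ε) ≤ S ∧ S ≤ w * (μ + ε) := by
  have h1 := abs_le_of_sq_le_sq' (h.trans hE) (mul_nonneg hw hε)
  constructor <;> nlinarith [h1.1, h1.2]

/-- numerical part, moduli `k` -/
theorem numK (c₁ c₃ ℓ N K J X Y w : ℝ) (κ : ℕ) (hc₁ : 0 < c₁) (hc₃ : 0 < c₃) (hℓ : 4 ≤ ℓ)
    (hN : 0 < N) (hJ : 0 < J) (hX1 : 1 ≤ X) (hY0 : 0 ≤ Y) (hKN : K ≤ N)
    (hYX : 2 * Y * N ≤ X) (hXK : X ≤ K * N)
    (hJℓ : 2 ^ (κ + 13) * (1 / (c₁ * c₃ ^ 2)) * ℓ ^ (κ + 3) ≤ J) (hw : 0 ≤ w)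
    (hXw : c₁ / (2 * ℓ) ^ κ * X / 8 ≤ w) :
    8 * ((X + 1) + (2 * Y) ^ 2) * w / (J + 1) * (4 * (2 * ℓ)) ≤ (w * (c₃ / (2 * ℓ))) ^ 2 := by
  have hℓ0 : 0 < ℓ := by linarith
  have hY2 : (2 * Y) ^ 2 ≤ X := by
    have h1 : (2 * Y) ^ 2 * N ^ 2 ≤ X ^ 2 := by
      have := pow_le_pow_left₀ (by positivity) hYX 2
      linarith [this, mul_pow (2 * Y) N 2]
    have h2 : X ^ 2 ≤ X * N ^ 2 := by
      have : X ≤ N ^ 2 := hXK.trans (by nlinarith)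
      nlinarith
    have h3 := h1.trans h2
    exact le_of_mul_le_mul_right h3 (by positivity)
  have hXw2 : X ≤ 8 * (2 * ℓ) ^ κ / c₁ * w := by
    rw [div_mul_eq_mul_div, le_div_iff₀ hc₁]
    have h1 : c₁ / (2 * ℓ) ^ κ * X / 8 = c₁ * X / (8 * (2 * ℓ) ^ κ) := by field_simp
    rw [h1, div_le_iff₀ (by positivity)] at hXw
    linarith
  have hJ' : 2 ^ (κ + 13) * (1 / (c₁ * c₃ ^ 2)) * ℓ ^ (κ + 3) / J ≤ 1 := by
    rw [div_le_one hJ]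
    exact hJℓ
  calc 8 * ((X + 1) + (2 * Y) ^ 2) * w / (J + 1) * (4 * (2 * ℓ))
      ≤ 8 * (3 * X) * w / J * (4 * (2 * ℓ)) := by
        apply mul_le_mul_of_nonneg_right _ (by positivity)
        apply div_le_div₀ (by positivity) _ hJ (by linarith)
        apply mul_le_mul_of_nonneg_right _ hw
        linarith
    _ = 192 * ℓ / J * w * X := by ring
    _ ≤ 192 * ℓ / J * w * (8 * (2 * ℓ) ^ κ / c₁ * w) := by
        apply mul_le_mul_of_nonneg_left hXw2 (by positivity)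
    _ ≤ (w * (c₃ / (2 * ℓ))) ^ 2 * (2 ^ (κ + 13) * (1 / (c₁ * c₃ ^ 2)) * ℓ ^ (κ + 3) / J) := by
        have h1 : (w * (c₃ / (2 * ℓ))) ^ 2 * (2 ^ (κ + 13) * (1 / (c₁ * c₃ ^ 2)) * ℓ ^ (κ + 3) / J) =
            2048 * (2 ^ κ * ℓ ^ κ * ℓ / (c₁ * J) * w ^ 2) := by
          field_simp
          ring
        have h2 : 192 * ℓ / J * w * (8 * (2 * ℓ) ^ κ / c₁ * w) =
            1536 * (2 ^ κ * ℓ ^ κ * ℓ / (c₁ * J) * w ^ 2) := by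
          rw [mul_pow]
          field_simp
          ring
        rw [h1, h2]
        apply mul_le_mul_of_nonneg_right (by norm_num)
        positivity
    _ ≤ (w * (c₃ / (2 * ℓ))) ^ 2 * 1 := by
        apply mul_le_mul_of_nonneg_left hJ' (by positivity)
    _ = _ := mul_one _

/-- numerical part, sieve weights -/
theorem numW (c₁ c₃ ℓ N K J T D F X w : ℝ) (κ : ℕ) (hc₁ : 0 < c₁) (hc₃ : 0 < c₃) (hℓ : 4 ≤ ℓ)
    (hN : 1 ≤ N) (hK : 0 < K) (hJ : 0 < J) (hD : 1 ≤ D) (hKN : K ≤ N)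
    (hT : T = K * J / N)
    (hXK : X ≤ K * N) (hXl : c₁ / (2 * ℓ) ^ κ * (K * N) / 8 ≤ X)
    (hDF : D ^ 4 * F ^ 2 ≤ 4 * T ^ ((1 : ℝ) / 2))
    (hTℓ : 2 ^ (2 * κ + 29) * (1 / (c₁ ^ 2 * c₃ ^ 2)) * ℓ ^ (2 * κ + 3) ≤ T ^ ((1 : ℝ) / 2)) (hw : 0 ≤ w)
    (hXw : c₁ / (2 * ℓ) ^ κ * X / 8 ≤ w) :
    8 * ((X + 1) + (8 * N * D) ^ 2) * w / (J + 1) * (64 * F ^ 2 * D ^ 2 * (3 * ℓ)) ≤
      (w * (c₃ / (4 * ℓ))) ^ 2 := by
  have hℓ0 : 0 < ℓ := by linarith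
  have hN0 : 0 < N := by linarith
  have hT0 : 0 < T := by rw [hT]; positivity
  have hTs : 0 < T ^ ((1 : ℝ) / 2) := Real.rpow_pos_of_pos hT0 _
  have hTT : T ^ ((1 : ℝ) / 2) * T ^ ((1 : ℝ) / 2) = T := by
    rw [← Real.rpow_add hT0]
    norm_num
  have hXN : (X + 1) + (8 * N * D) ^ 2 ≤ 66 * (N ^ 2 * D ^ 2) := by
    have h1 : N ^ 2 * 1 ≤ N ^ 2 * D ^ 2 := mul_le_mul_of_nonneg_left (one_le_pow₀ hD) (by positivity)
    have h2 : K * N ≤ N ^ 2 := by nlinarith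
    have h3 : (1 : ℝ) ≤ N ^ 2 := one_le_pow₀ hN
    nlinarith
  -- N^2 / J in terms of w
  have hNJ : N ^ 2 / J ≤ 64 * (2 * ℓ) ^ (2 * κ) / c₁ ^ 2 * w / T := by
    rw [le_div_iff₀ hT0, hT]
    have h1 : N ^ 2 / J * (K * J / N) = K * N := by field_simp
    rw [h1, div_mul_eq_mul_div, le_div_iff₀ (by positivity)]
    have h2 : c₁ / (2 * ℓ) ^ κ * (c₁ / (2 * ℓ) ^ κ * (K * N) / 8) / 8 ≤ w :=
      le_trans (by
        apply div_le_div_of_nonneg_right _ (by norm_num)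
        exact mul_le_mul_of_nonneg_left hXl (by positivity)) hXw
    have h3 : c₁ / (2 * ℓ) ^ κ * (c₁ / (2 * ℓ) ^ κ * (K * N) / 8) / 8 =
        c₁ ^ 2 * (K * N) / (64 * (2 * ℓ) ^ (2 * κ)) := by
      rw [show (2 * ℓ) ^ (2 * κ) = (2 * ℓ) ^ κ * (2 * ℓ) ^ κ by rw [two_mul κ, pow_add]]
      field_simp
      ring
    rw [h3, div_le_iff₀ (by positivity)] at h2
    linarith
  have hfin : 2 ^ (2 * κ + 29) * (1 / (c₁ ^ 2 * c₃ ^ 2)) * ℓ ^ (2 * κ + 3) / T ^ ((1 : ℝ) / 2) ≤ 1 := by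
    rw [div_le_one hTs]
    exact hTℓ
  calc 8 * ((X + 1) + (8 * N * D) ^ 2) * w / (J + 1) * (64 * F ^ 2 * D ^ 2 * (3 * ℓ))
      ≤ 8 * (66 * (N ^ 2 * D ^ 2)) * w / J * (64 * F ^ 2 * D ^ 2 * (3 * ℓ)) := by
        apply mul_le_mul_of_nonneg_right _ (by positivity)
        apply div_le_div₀ (by positivity) _ hJ (by linarith)
        apply mul_le_mul_of_nonneg_right _ hw
        linarith
    _ = 101376 * ℓ * w * (D ^ 4 * F ^ 2) * (N ^ 2 / J) := by ring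
    _ ≤ 101376 * ℓ * w * (4 * T ^ ((1 : ℝ) / 2)) * (N ^ 2 / J) := by
        apply mul_le_mul_of_nonneg_right _ (by positivity)
        apply mul_le_mul_of_nonneg_left hDF (by positivity)
    _ ≤ 101376 * ℓ * w * (4 * T ^ ((1 : ℝ) / 2)) * (64 * (2 * ℓ) ^ (2 * κ) / c₁ ^ 2 * w / T) := by
        apply mul_le_mul_of_nonneg_left hNJ (by positivity)
    _ ≤ (w * (c₃ / (4 * ℓ))) ^ 2 *
        (2 ^ (2 * κ + 29) * (1 / (c₁ ^ 2 * c₃ ^ 2)) * ℓ ^ (2 * κ + 3) / T ^ ((1 : ℝ) / 2)) := by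
        have h1 : (w * (c₃ / (4 * ℓ))) ^ 2 *
            (2 ^ (2 * κ + 29) * (1 / (c₁ ^ 2 * c₃ ^ 2)) * ℓ ^ (2 * κ + 3) / T ^ ((1 : ℝ) / 2)) =
            33554432 * (2 ^ (2 * κ) * ℓ ^ (2 * κ) * ℓ / (c₁ ^ 2 * T ^ ((1 : ℝ) / 2)) * w ^ 2) := by
          field_simp
          ring
        have h2 : 101376 * ℓ * w * (4 * T ^ ((1 : ℝ) / 2)) * (64 * (2 * ℓ) ^ (2 * κ) / c₁ ^ 2 * w / T) =
            25952256 * (2 ^ (2 * κ) * ℓ ^ (2 * κ) * ℓ / (c₁ ^ 2 * T ^ ((1 : ℝ) / 2)) * w ^ 2) := by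
          rw [mul_pow]
          nth_rw 2 [← hTT]
          field_simp
          ring
        rw [h1, h2]
        apply mul_le_mul_of_nonneg_right (by norm_num)
        positivity
    _ ≤ (w * (c₃ / (4 * ℓ))) ^ 2 * 1 := by
        apply mul_le_mul_of_nonneg_left hfin (by positivity)
    _ = _ := mul_one _

/-- switching from `k` to `n` -/
theorem switch (J Y z : ℕ) (f : Finset ℕ → ℝ) (hf0 : ∀ k, 0 ≤ ww z f k)
    (hf1 : ∀ k, BB z k = ∅ → 1 ≤ ww z f k) (Ks G : Finset ℕ) (hzY : z ≤ 2 * Y + 1)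
    (hKs : ∀ k ∈ Ks, Y < k ∧ (2 * k + 1).Prime) (m : ℕ) (hm : J < m)
    (hG : ∀ k ∈ Ks, ∀ j, j ≤ J → k ∣ m - j → (m - j) / k ∈ G) :
    ∑ k ∈ Ks, (#((range (J + 1)).filter (fun j => k ∣ m - j)) : ℝ) / ((J : ℝ) + 1) ≤
      ∑ n ∈ G, (∑ j ∈ (range (J + 1)).filter (fun j => n ∣ m - j), ww z f ((m - j) / n)) /
        ((J : ℝ) + 1) := by
  classical
  rw [← sum_div, ← sum_div]
  apply div_le_div_of_nonneg_right _ (by positivity)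
  have e1 : ∑ k ∈ Ks, (#((range (J + 1)).filter (fun j => k ∣ m - j)) : ℝ) =
      ∑ j ∈ range (J + 1), ∑ k ∈ Ks.filter (fun k => k ∣ m - j), (1 : ℝ) := by
    have h1 : ∀ k ∈ Ks, (#((range (J + 1)).filter (fun j => k ∣ m - j)) : ℝ) =
        ∑ j ∈ range (J + 1), if k ∣ m - j then (1 : ℝ) else 0 := by
      intro k _
      rw [card_filter]
      push_cast
      rfl
    rw [sum_congr rfl h1, sum_comm]
    exact sum_congr rfl fun j _ => (sum_filter _ _).symm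
  have e2 : ∑ n ∈ G, ∑ j ∈ (range (J + 1)).filter (fun j => n ∣ m - j), ww z f ((m - j) / n) =
      ∑ j ∈ range (J + 1), ∑ n ∈ G.filter (fun n => n ∣ m - j), ww z f ((m - j) / n) := by
    have h1 : ∀ n ∈ G, ∑ j ∈ (range (J + 1)).filter (fun j => n ∣ m - j), ww z f ((m - j) / n) =
        ∑ j ∈ range (J + 1), if n ∣ m - j then ww z f ((m - j) / n) else 0 :=
      fun n _ => sum_filter _ _
    rw [sum_congr rfl h1, sum_comm]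
    exact sum_congr rfl fun j _ => (sum_filter _ _).symm
  rw [e1, e2]
  apply sum_le_sum
  intro j hj
  rw [mem_range] at hj
  set A := Ks.filter (fun k => k ∣ m - j) with hA
  have hmj : 0 < m - j := by omega
  have hA1 : ∀ k ∈ A, k ∈ Ks ∧ k ∣ m - j ∧ 0 < k := by
    intro k hk
    rw [hA, mem_filter] at hk
    exact ⟨hk.1, hk.2, Nat.pos_of_dvd_of_pos hk.2 hmj⟩
  have hdd : ∀ k ∈ A, (m - j) / ((m - j) / k) = k := by
    intro k hk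
    exact Nat.div_div_self (hA1 k hk).2.1 hmj.ne'
  calc ∑ k ∈ A, (1 : ℝ) ≤ ∑ k ∈ A, ww z f ((m - j) / ((m - j) / k)) := by
        apply sum_le_sum
        intro k hk
        rw [hdd k hk]
        apply hf1
        obtain ⟨h1, h2, h3⟩ := hA1 k hk
        obtain ⟨h4, h5⟩ := hKs k h1
        rw [eq_empty_iff_forall_notMem]
        intro p hp
        unfold BB PP at hp
        rw [mem_filter, mem_filter, mem_range] at hp
        have h6 := (Nat.prime_dvd_prime_iff_eq hp.1.2.1 h5).1 hp.2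
        omega
    _ = ∑ n ∈ A.image (fun k => (m - j) / k), ww z f ((m - j) / n) := by
        rw [sum_image]
        intro a ha b hb hab
        simp only at hab
        rw [← hdd a ha, ← hdd b hb, hab]
    _ ≤ ∑ n ∈ G.filter (fun n => n ∣ m - j), ww z f ((m - j) / n) := by
        apply sum_le_sum_of_subset_of_nonneg
        · intro n hn
          obtain ⟨k, hk, rfl⟩ := mem_image.1 hn
          obtain ⟨h1, h2, h3⟩ := hA1 k hk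
          rw [mem_filter]
          exact ⟨hG k h1 j (by omega) h2, Nat.div_dvd_of_dvd h2⟩
        · intro n _ _
          exact hf0 _

/-- the range of `n = (m - j)/k` -/
theorem range_n (N J X Y k m j : ℕ) (hN : 1 ≤ N) (hJN : J ≤ N) (hX : 3 * N ≤ X) (hY : Y = (X - N) / (2 * N))
    (hk : k ∈ Ioc Y (2 * Y)) (hm1 : X < m) (hm2 : m ≤ 2 * X + 1) (hj : j ≤ J) (hd : k ∣ m - j) :
    (m - j) / k ∈ Ioc N (8 * N) := by
  rw [mem_Ioc] at hk ⊢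
  obtain ⟨n, hn⟩ := hd
  have hk0 : 0 < k := by omega
  have e1 : (m - j) / k = n := by rw [hn]; exact Nat.mul_div_cancel_left n hk0
  rw [e1]
  have h1 : 2 * N * Y ≤ X - N := by rw [hY]; exact Nat.mul_div_le _ _
  have h2 : X - N < 2 * N * (Y + 1) := by
    rw [hY]
    exact Nat.lt_mul_div_succ _ (by omega)
  have h3 : X - N < k * n := by omega
  constructor
  · by_contra hcon
    push Not at hcon
    have h4 : k * n ≤ 2 * Y * N := Nat.mul_le_mul hk.2 hcon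
    have h5 : 2 * Y * N = 2 * N * Y := by ring
    omega
  · by_contra hcon
    push Not at hcon
    have h4 : (Y + 1) * (8 * N + 1) ≤ k * n := Nat.mul_le_mul (by omega) hcon
    have h5 : (Y + 1) * (8 * N + 1) = 4 * (2 * N * (Y + 1)) + (Y + 1) := by ring
    omega

theorem ind_mono {L R m : ℕ} {y y' : ℝ} (h : y' ≤ y) (hi : Ind L R y m) : Ind L R y' m :=
  fun i hi' => ⟨(hi i hi').1, fun r hr hd => h.trans ((hi i hi').2 r hr hd)⟩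

theorem pow_cmp (N K : ℕ) (c δ : ℝ) (hN : 1 ≤ N) (hK : 1 ≤ K) (hcδ : c ≤ δ) (hδ : 0 < δ) :
    (N : ℝ) ^ c ≤ ((K * N : ℕ) : ℝ) ^ δ := by
  have h1 : (1 : ℝ) ≤ N := by exact_mod_cast hN
  refine (Real.rpow_le_rpow_of_exponent_le h1 hcδ).trans ?_
  apply Real.rpow_le_rpow (by positivity) _ hδ.le
  exact_mod_cast Nat.le_mul_of_pos_left N hK

/-- numerical conclusion -/
theorem numC (c₃ C₂ θ ℓ N T z g c : ℝ) (hℓ : 0 < ℓ) (hC₂ : 0 < C₂) (hN : 0 < N)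
    (hz : 0 < Real.log z) (hT : 0 ≤ Real.log T) (h1 : θ * Real.log T ≤ Real.log z) (hc₃ : 0 < c₃)
    (hc : c ≤ c₃ * θ / (4 * C₂)) (h : c₃ / (4 * ℓ) ≤ C₂ / Real.log z * (g / N)) :
    c * (N * (Real.log T / ℓ)) ≤ g := by
  calc c * (N * (Real.log T / ℓ)) ≤ c₃ * θ / (4 * C₂) * (N * (Real.log T / ℓ)) := by
        apply mul_le_mul_of_nonneg_right hc (by positivity)
    _ = c₃ / (4 * ℓ) * N / C₂ * (θ * Real.log T) := by
        field_simp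
    _ ≤ c₃ / (4 * ℓ) * N / C₂ * Real.log z := by
        apply mul_le_mul_of_nonneg_left h1 (by positivity)
    _ ≤ (C₂ / Real.log z * (g / N)) * N / C₂ * Real.log z := by
        apply mul_le_mul_of_nonneg_right _ hz.le
        apply div_le_div_of_nonneg_right _ hC₂.le
        exact mul_le_mul_of_nonneg_right h hN.le
    _ = g := by
        field_simp

/-- numerical facts -/
theorem numS (κ : ℕ) (c₁ ℓ K T : ℝ) (hc₁ : 0 < c₁) (hc₁1 : c₁ ≤ 1) (hℓ : 4 ≤ ℓ)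
    (h2 : 800 * 2 ^ κ / c₁ ≤ ℓ) (hT : ℓ ^ (4 * κ + 12) ≤ T) (hTK : T ≤ K) :
    ∃ s : ℝ, 0 < s ∧ s * s = K ∧ T ^ ((1 : ℝ) / 2) ≤ s ∧ ℓ ^ (2 * κ + 6) ≤ T ^ ((1 : ℝ) / 2) ∧
      800 ≤ c₁ / (2 * ℓ) ^ κ * s ∧ 800 ≤ s ∧ 0 < c₁ / (2 * ℓ) ^ κ ∧ c₁ / (2 * ℓ) ^ κ ≤ 1 := by
  have hℓ1 : 1 ≤ ℓ := by linarith
  have hℓ0 : 0 < ℓ := by linarith
  have hTpos : 0 < T := lt_of_lt_of_le (by positivity) hT
  have hK0 : 0 < K := by linarith
  have hTh : ℓ ^ (2 * κ + 6) ≤ T ^ ((1 : ℝ) / 2) := by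
    have h1 : ℓ ^ (2 * κ + 6) = (ℓ ^ (4 * κ + 12)) ^ ((1 : ℝ) / 2) := by
      rw [← Real.sqrt_eq_rpow, show 4 * κ + 12 = (2 * κ + 6) * 2 by ring, pow_mul,
        Real.sqrt_sq (by positivity)]
    rw [h1]
    exact Real.rpow_le_rpow (by positivity) hT (by norm_num)
  have hTs : T ^ ((1 : ℝ) / 2) ≤ K ^ ((1 : ℝ) / 2) := Real.rpow_le_rpow hTpos.le hTK (by norm_num)
  have h2ℓ : (0 : ℝ) < (2 * ℓ) ^ κ := by positivity
  have hη0 : 0 < c₁ / (2 * ℓ) ^ κ := by positivity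
  have hη1 : c₁ / (2 * ℓ) ^ κ ≤ 1 := by
    rw [div_le_one h2ℓ]
    exact hc₁1.trans (one_le_pow₀ (by linarith))
  have hηs : 800 ≤ c₁ / (2 * ℓ) ^ κ * K ^ ((1 : ℝ) / 2) := by
    have h1 : 800 * 2 ^ κ / c₁ * ℓ ^ κ ≤ K ^ ((1 : ℝ) / 2) := by
      refine le_trans ?_ (hTh.trans hTs)
      calc 800 * 2 ^ κ / c₁ * ℓ ^ κ ≤ ℓ * ℓ ^ κ := mul_le_mul_of_nonneg_right h2 (by positivity)
        _ = ℓ ^ (κ + 1) := by ring
        _ ≤ ℓ ^ (2 * κ + 6) := pow_le_pow_right₀ hℓ1 (by omega)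
    have h3 : c₁ / (2 * ℓ) ^ κ * (800 * 2 ^ κ / c₁ * ℓ ^ κ) = 800 := by
      rw [mul_pow]
      field_simp
    rw [← h3]
    exact mul_le_mul_of_nonneg_left h1 hη0.le
  have hs0 : 0 < K ^ ((1 : ℝ) / 2) := Real.rpow_pos_of_pos hK0 _
  refine ⟨K ^ ((1 : ℝ) / 2), hs0, ?_, hTs, hTh, hηs, ?_, hη0, hη1⟩
  · rw [← Real.rpow_add hK0]
    norm_num
  · nlinarith

/-- the range of `k` -/
theorem geo (N X K Y : ℕ) (s : ℝ) (hN : 1 ≤ N) (hY : Y = (X - N) / (2 * N)) (hs : 800 ≤ s)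
    (hX : 100 * s * N ≤ X) (hXK : X ≤ K * N) :
    4 * s ≤ Y ∧ 2 * Y ≤ K ∧ 2 * (Y : ℝ) * N ≤ X ∧ 3 * N ≤ X := by
  have hNr : (1 : ℝ) ≤ N := by exact_mod_cast hN
  have hNr0 : (0 : ℝ) < N := by linarith
  have hX3 : 3 * N ≤ X := by
    have : (3 : ℝ) * N ≤ X := by nlinarith
    exact_mod_cast this
  have hY1 : 2 * N * Y ≤ X - N := by rw [hY]; exact Nat.mul_div_le _ _
  have hY2 : X - N < 2 * N * (Y + 1) := by
    rw [hY]
    exact Nat.lt_mul_div_succ _ (by omega)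
  refine ⟨?_, ?_, ?_, hX3⟩
  · have h1 : (X : ℝ) < 2 * N * (Y + 1) + N := by
      have : X < 2 * N * (Y + 1) + N := by omega
      exact_mod_cast this
    have h2 : 100 * s * N < (2 * (Y + 1) + 1) * N := by linarith
    have h3 : 100 * s < 2 * (Y + 1) + 1 := lt_of_mul_lt_mul_right h2 hNr0.le
    linarith
  · have h1 : 2 * Y * N ≤ K * N := by
      have : 2 * N * Y = 2 * Y * N := by ring
      omega
    exact Nat.le_of_mul_le_mul_right h1 (by omega)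
  · have : 2 * N * Y ≤ X := by omega
    have h2 : (2 : ℝ) * N * Y ≤ X := by exact_mod_cast this
    linarith

theorem log_aux (N : ℕ) (D ℓ : ℝ) (hN : 1 ≤ N) (hD0 : 0 < D) (hD : D ≤ N) (hℓ : ℓ = Real.log N)
    (hℓ4 : 4 ≤ ℓ) : 1 + Real.log (8 * N * D) ≤ 3 * ℓ := by
  have hNr : (1 : ℝ) ≤ N := by exact_mod_cast hN
  have h4 : 8 * (N : ℝ) * D ≤ 8 * (N * N) := by nlinarith
  have h5 : Real.log (8 * (N : ℝ) * D) ≤ Real.log 8 + 2 * ℓ := by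
    refine (Real.log_le_log (by positivity) h4).trans ?_
    rw [Real.log_mul (by norm_num) (by positivity), Real.log_mul (by positivity) (by positivity), ← hℓ]
    linarith
  have h6 : Real.log 8 ≤ 3 := by
    have : Real.log 8 = 3 * Real.log 2 := by
      rw [show (8 : ℝ) = 2 ^ 3 by norm_num, Real.log_pow]
      norm_num
    have h2 := Real.log_two_lt_d9
    linarith
  linarith

/-- the comparison -/
theorem compare (N J X Y z D κ : ℕ) (K c₁ c₃ ℓ T μ : ℝ) (Ks G W : Finset ℕ) (f : Finset ℕ → ℝ)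
    (hN : 1 ≤ N) (hℓ : ℓ = Real.log N) (hℓ4 : 4 ≤ ℓ) (hc₁ : 0 < c₁) (hc₃ : 0 < c₃) (hJ0 : (0 : ℝ) < J)
    (hK0 : 0 < K) (hKN : K ≤ N) (hT : T = K * J / N) (hX1 : (1 : ℝ) ≤ X) (hY1 : 1 ≤ Y)
    (hYK : 2 * (Y : ℝ) ≤ K) (hYX : 2 * (Y : ℝ) * N ≤ X) (hXK : (X : ℝ) ≤ K * N)
    (hJℓ : 2 ^ (κ + 13) * (1 / (c₁ * c₃ ^ 2)) * ℓ ^ (κ + 3) ≤ J)
    (hTℓ : 2 ^ (2 * κ + 29) * (1 / (c₁ ^ 2 * c₃ ^ 2)) * ℓ ^ (2 * κ + 3) ≤ T ^ ((1 : ℝ) / 2))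
    (hXl : c₁ / (2 * ℓ) ^ κ * (K * N) / 8 ≤ X) (hXw : c₁ / (2 * ℓ) ^ κ * X / 8 ≤ (#W : ℝ))
    (hD : 1 ≤ D) (hDN : (D : ℝ) ≤ N) (hDF : (D : ℝ) ^ 4 * ((z : ℝ) + 1) ^ 2 ≤ 4 * T ^ ((1 : ℝ) / 2))
    (hf : ∀ d, |f d| ≤ (z : ℝ) + 1) (hfs : ∀ d, f d ≠ 0 → ∏ p ∈ d, p ≤ D)
    (hf0 : ∀ k, 0 ≤ ww z f k) (hf1 : ∀ k, BB z k = ∅ → 1 ≤ ww z f k) (hzY : z ≤ 2 * Y + 1)
    (hKs : Ks ⊆ Ioc Y (2 * Y)) (hKp : ∀ k ∈ Ks, (2 * k + 1).Prime)
    (hμd : μ = ∑ k ∈ Ks, 1 / (k : ℝ)) (hμ : c₃ / ℓ ≤ μ) (hGs : G ⊆ Ioc N (8 * N))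
    (hW1 : W ⊆ Ico (X + 1) (X + 1 + (X + 1))) (hWJ : ∀ m ∈ W, J < m)
    (hG : ∀ m ∈ W, ∀ k ∈ Ks, ∀ j, j ≤ J → k ∣ m - j → (m - j) / k ∈ G) :
    c₃ / (4 * ℓ) ≤ mw z f * ∑ n ∈ G, 1 / (n : ℝ) := by
  have hℓ0 : 0 < ℓ := by linarith
  have hNr : (1 : ℝ) ≤ N := by exact_mod_cast hN
  have hYr : (1 : ℝ) ≤ Y := by exact_mod_cast hY1
  have hw0 : (0 : ℝ) < #W := by
    refine lt_of_lt_of_le ?_ hXw
    positivity
  have hkls := kls Y J (X + 1) (X + 1) Ks W hKs hW1 hWJ hY1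
  rw [← hμd] at hkls
  have hS1 := (low_of_sq _ #W μ (c₃ / (2 * ℓ)) _ hw0.le (by positivity) hkls (by
    refine le_trans ?_ (numK c₁ c₃ ℓ N K J X Y #W κ hc₁ hc₃ hℓ4 (by linarith) hJ0 hX1 (by linarith) hKN
      hYX hXK hJℓ hw0.le hXw)
    push_cast
    apply mul_le_mul_of_nonneg_left _ (by positivity)
    apply mul_le_mul_of_nonneg_left _ (by norm_num)
    have h1 : Real.log (2 * (Y : ℝ)) ≤ ℓ := by
      rw [hℓ]
      exact Real.log_le_log (by linarith) (hYK.trans hKN)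
    linarith)).1
  have hwls := wls N J (X + 1) (X + 1) z D ((z : ℝ) + 1) G W hGs hW1 hWJ f hf hfs hN hD
  have hS2 := (low_of_sq _ #W (mw z f * ∑ n ∈ G, 1 / (n : ℝ)) (c₃ / (4 * ℓ)) _ hw0.le
    (by positivity) hwls (by
    refine le_trans ?_ (numW c₁ c₃ ℓ N K J T D ((z : ℝ) + 1) X #W κ hc₁ hc₃ hℓ4 hNr hK0 hJ0
      (by exact_mod_cast hD) hKN hT hXK hXl hDF hTℓ hw0.le hXw)
    push_cast
    apply mul_le_mul_of_nonneg_left _ (by positivity)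
    apply mul_le_mul_of_nonneg_left _ (by positivity)
    exact log_aux N D ℓ hN (by exact_mod_cast hD) hDN hℓ hℓ4)).2
  have hcmp : ∑ m ∈ W, ∑ k ∈ Ks, (#((range (J + 1)).filter (fun j => k ∣ m - j)) : ℝ) /
      ((J : ℝ) + 1) ≤ ∑ m ∈ W, ∑ n ∈ G, (∑ j ∈ (range (J + 1)).filter (fun j => n ∣ m - j),
        ww z f ((m - j) / n)) / ((J : ℝ) + 1) := by
    apply sum_le_sum
    intro m hm
    exact switch J Y z f hf0 hf1 Ks G hzY (fun k hk => ⟨(mem_Ioc.1 (hKs hk)).1, hKp k hk⟩) m (hWJ m hm)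
      (hG m hm)
  have h2 := le_of_mul_le_mul_left (hS1.trans (hcmp.trans hS2)) hw0
  have h4 : c₃ / ℓ = c₃ / (2 * ℓ) + c₃ / (4 * ℓ) + c₃ / (4 * ℓ) := by
    field_simp
    norm_num
  linarith

open Classical in
/-- the elements of `G` -/
theorem good_mem (L R N K J X Y : ℕ) (y y' E : ℝ) (hN : 1 ≤ N) (hJN : J ≤ N) (hX3 : 3 * N ≤ X)
    (hY : Y = (X - N) / (2 * N)) (hYK : 2 * Y ≤ K) (hE : ∀ k : ℕ, Y < k → E ≤ k) (hy : y' ≤ y)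
    (M : Finset ℕ) (hM : ∀ m ∈ M, Ind L R y m) :
    ∀ m ∈ M.filter (fun m => X < m ∧ m ≤ 2 * X + 1),
      ∀ k ∈ (Ioc Y (2 * Y)).filter (fun k => (2 * k + 1).Prime), ∀ j, j ≤ J → k ∣ m - j →
      (m - j) / k ∈ (Ioc N (8 * N)).filter (fun n => ∃ k j : ℕ, E ≤ k ∧ k ≤ K ∧ j ≤ J ∧
        (2 * k + 1).Prime ∧ Ind L R y' (k * n + j)) := by
  intro m hm k hk j hj hd
  rw [mem_filter] at hm hk
  rw [mem_filter]
  refine ⟨range_n N J X Y k m j hN hJN hX3 hY hk.1 hm.2.1 hm.2.2 hj hd, k, j, ?_, ?_, hj, hk.2, ?_⟩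
  · exact hE k (mem_Ioc.1 hk.1).1
  · have h2 := (mem_Ioc.1 hk.1).2
    omega
  · have h2 : k * ((m - j) / k) = m - j := Nat.mul_div_cancel' hd
    have h3 : k * ((m - j) / k) + j = m := by
      have := hm.2.1
      omega
    rw [h3]
    exact ind_mono hy (hM m hm.1)

theorem card_low (κ N K : ℕ) (c₀ c₁ ℓ : ℝ) (hc₀ : 0 < c₀) (hc : c₁ ≤ c₀)
    (hℓ : ℓ = Real.log N) (hN : 2 ≤ N) (hK : 1 ≤ K) (hKN : K ≤ N) (M : Finset ℕ)
    (hM : c₀ * (((K * N : ℕ) : ℝ) / (Real.log ((K * N : ℕ) : ℝ)) ^ κ) ≤ (#M : ℝ)) :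
    c₁ / (2 * ℓ) ^ κ * ((K * N : ℕ) : ℝ) ≤ #M := by
  have hNr : (2 : ℝ) ≤ N := by exact_mod_cast hN
  have hKr : (1 : ℝ) ≤ K := by exact_mod_cast hK
  have hKNr : (K : ℝ) ≤ N := by exact_mod_cast hKN
  refine le_trans ?_ hM
  have h1 : Real.log ((K * N : ℕ) : ℝ) ≤ 2 * ℓ := by
    push_cast
    rw [Real.log_mul (by positivity) (by positivity), hℓ]
    have : Real.log K ≤ Real.log N := Real.log_le_log (by positivity) hKNr
    linarith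
  have h2 : 0 < Real.log ((K * N : ℕ) : ℝ) := by
    apply Real.log_pos
    push_cast
    nlinarith
  have h3 : c₁ / (2 * ℓ) ^ κ * ((K * N : ℕ) : ℝ) = c₁ * (((K * N : ℕ) : ℝ) / (2 * ℓ) ^ κ) := by
    ring
  rw [h3]
  have hℓ0 : 0 < 2 * ℓ := by linarith
  apply mul_le_mul hc _ (by positivity) hc₀.le
  apply div_le_div_of_nonneg_left (by positivity) (by positivity)
  exact pow_le_pow_left₀ h2.le h1 _

theorem sum_inv_le (N : ℕ) (hN : 1 ≤ N) (G : Finset ℕ) (hGs : G ⊆ Ioc N (8 * N)) :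
    ∑ n ∈ G, 1 / (n : ℝ) ≤ (#G : ℝ) / N := by
  have hNr0 : (0 : ℝ) < N := by exact_mod_cast hN
  have h1 : ∑ n ∈ G, 1 / (n : ℝ) ≤ ∑ n ∈ G, 1 / (N : ℝ) := by
    apply sum_le_sum
    intro n hn
    have h2 := mem_Ioc.1 (hGs hn)
    have h3 : (N : ℝ) ≤ n := by exact_mod_cast h2.1.le
    exact one_div_le_one_div_of_le hNr0 h3
  rw [sum_const, nsmul_eq_mul] at h1
  calc ∑ n ∈ G, 1 / (n : ℝ) ≤ #G * (1 / (N : ℝ)) := h1
    _ = _ := by ring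

open Classical in
theorem partB (L : ℕ) : ∃ (R C : ℕ) (c : ℝ) (N₀ : ℕ), 0 < c ∧ ∀ N K J : ℕ, N₀ ≤ N → K ≤ N → J ≤ N →
    (Real.log N) ^ C ≤ (K : ℝ) * J / N →
    c * (N * (Real.log ((K : ℝ) * J / N) / Real.log N)) ≤
    (#((Ioc N (8 * N)).filter (fun n => ∃ k j : ℕ, (K : ℝ) / (Real.log N) ^ C ≤ k ∧ k ≤ K ∧ j ≤ J ∧
      (2 * k + 1).Prime ∧ Ind L R ((N : ℝ) ^ c) (k * n + j))) : ℝ) := by
  obtain ⟨κ, R, δ, c₀, hδ, hc₀, N₁, hidx⟩ := index_set L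
  obtain ⟨B, c₂, C₂, hc₂, hC₂, hw⟩ := weights
  obtain ⟨c₃, Y₀, hc₃, hklow⟩ := klow
  obtain ⟨c₁, hc₁, hc₁1, hc₁0⟩ : ∃ c₁ : ℝ, 0 < c₁ ∧ c₁ ≤ 1 ∧ c₁ ≤ c₀ :=
    ⟨min c₀ 1, lt_min hc₀ one_pos, min_le_right _ _, min_le_left _ _⟩
  obtain ⟨θ, hθ⟩ : ∃ θ : ℝ, θ = 1 / (16 * (B + 1)) := ⟨_, rfl⟩
  have hθ0 : 0 < θ := by rw [hθ]; positivity
  obtain ⟨a₁, ha₁⟩ : ∃ a : ℝ, a = (4 : ℝ) ^ (8 * (B + 1)) := ⟨_, rfl⟩
  obtain ⟨a₂, ha₂⟩ : ∃ a : ℝ, a = 800 * 2 ^ κ / c₁ := ⟨_, rfl⟩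
  obtain ⟨a₃, ha₃⟩ : ∃ a : ℝ, a = 2 ^ (κ + 13) * (1 / (c₁ * c₃ ^ 2)) := ⟨_, rfl⟩
  obtain ⟨a₄, ha₄⟩ : ∃ a : ℝ, a = 2 ^ (2 * κ + 29) * (1 / (c₁ ^ 2 * c₃ ^ 2)) := ⟨_, rfl⟩
  have hp1 : 0 < a₁ := by rw [ha₁]; positivity
  have hp2 : 0 < a₂ := by rw [ha₂]; positivity
  have hp3 : 0 < a₃ := by rw [ha₃]; positivity
  have hp4 : 0 < a₄ := by rw [ha₄]; positivity
  have hp5 : (0 : ℝ) ≤ Y₀ := Nat.cast_nonneg _
  obtain ⟨N₂, hN₂⟩ := Filter.eventually_atTop.1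
    ((Real.tendsto_log_atTop.comp tendsto_natCast_atTop_atTop).eventually_ge_atTop
      (a₁ + a₂ + a₃ + a₄ + Y₀ + 4))
  obtain ⟨c, hcpos, hcδ, hcf⟩ : ∃ c : ℝ, 0 < c ∧ c ≤ δ ∧ c ≤ c₃ * θ / (4 * C₂) :=
    ⟨min δ (c₃ * θ / (4 * C₂)), lt_min hδ (by positivity), min_le_left _ _, min_le_right _ _⟩
  refine ⟨R, 4 * κ + 12, c, max N₁ (max N₂ 2), hcpos, ?_⟩
  intro N K J hN hKN hJN hT
  simp only [max_le_iff] at hN
  obtain ⟨hN1, hN2, hN3⟩ := hN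
  have hℓA : a₁ + a₂ + a₃ + a₄ + Y₀ + 4 ≤ Real.log N := hN₂ N hN2
  obtain ⟨ℓ, hℓ⟩ : ∃ ℓ : ℝ, ℓ = Real.log N := ⟨_, rfl⟩
  rw [← hℓ] at hℓA hT ⊢
  have hℓ4 : 4 ≤ ℓ := by linarith
  have hℓ1 : 1 ≤ ℓ := by linarith
  have hℓ0 : 0 < ℓ := by linarith
  have hNr : (2 : ℝ) ≤ N := by exact_mod_cast hN3
  have hNr0 : (0 : ℝ) < N := by linarith
  have hKNr : (K : ℝ) ≤ N := by exact_mod_cast hKN
  have hJNr : (J : ℝ) ≤ N := by exact_mod_cast hJN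
  obtain ⟨T, hTdef⟩ : ∃ T : ℝ, T = (K : ℝ) * J / N := ⟨_, rfl⟩
  rw [← hTdef] at hT ⊢
  have hTpos : 0 < T := lt_of_lt_of_le (by positivity) hT
  have hpow : ∀ e : ℕ, e ≤ 4 * κ + 12 → ℓ ^ e ≤ T := fun e he =>
    le_trans (pow_le_pow_right₀ hℓ1 he) hT
  have hTℓ1 : ℓ ≤ T := by simpa using hpow 1 (by omega)
  have hK0 : (0 : ℝ) < K := by
    by_contra h
    have h0 : (K : ℝ) = 0 := le_antisymm (not_lt.1 h) (Nat.cast_nonneg K)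
    rw [hTdef, h0, zero_mul, zero_div] at hTpos
    exact lt_irrefl _ hTpos
  have hJ0 : (0 : ℝ) < J := by
    by_contra h
    have h0 : (J : ℝ) = 0 := le_antisymm (not_lt.1 h) (Nat.cast_nonneg J)
    rw [hTdef, h0, mul_zero, zero_div] at hTpos
    exact lt_irrefl _ hTpos
  have hK1 : 1 ≤ K := by exact_mod_cast hK0
  have hTK : T ≤ K := by
    rw [hTdef, div_le_iff₀ hNr0]
    exact mul_le_mul_of_nonneg_left hJNr hK0.le
  have hTJ : T ≤ J := by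
    rw [hTdef, div_le_iff₀ hNr0]
    calc (K : ℝ) * J ≤ N * J := mul_le_mul_of_nonneg_right hKNr hJ0.le
      _ = J * N := mul_comm _ _
  have hTN : T ≤ N := hTK.trans hKNr
  obtain ⟨s, hs0, hss, hTs, hTh, hηs, hs800, hη0, hη1⟩ := numS κ c₁ ℓ K T hc₁ hc₁1 hℓ4
    (by rw [← ha₂]; linarith) hT hTK
  obtain ⟨z, hz3, hzT, hTz, hDF, hzBT⟩ := choice B T (by rw [← ha₁]; linarith)
  rw [← hθ] at hTz
  have hzr : (3 : ℝ) ≤ z := by exact_mod_cast hz3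
  have hzs : (z : ℝ) ≤ 4 * s := by
    have h1 : (z : ℝ) ≤ ((z : ℝ) ^ B) ^ 4 * ((z : ℝ) + 1) ^ 2 := by
      have h2 : (1 : ℝ) ≤ ((z : ℝ) ^ B) ^ 4 := one_le_pow₀ (one_le_pow₀ (by linarith))
      have h3 : (z : ℝ) ≤ ((z : ℝ) + 1) ^ 2 := by nlinarith
      calc (z : ℝ) = 1 * z := (one_mul _).symm
        _ ≤ ((z : ℝ) ^ B) ^ 4 * ((z : ℝ) + 1) ^ 2 := mul_le_mul h2 h3 (by linarith) (by linarith)
    linarith
  obtain ⟨fp, fm, hF, hsupp, hfp, -, hmean, -⟩ := hw z hz3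
  have hcN : (N : ℝ) ^ c ≤ ((K * N : ℕ) : ℝ) ^ δ := pow_cmp N K c δ (by omega) hK1 hcδ hδ
  have hKN0 : N₁ ≤ K * N := hN1.trans (Nat.le_mul_of_pos_left _ hK1)
  obtain ⟨M, hM, hMind, hMcard⟩ := hidx (K * N) hKN0
  have hcardM := card_low κ N K c₀ c₁ ℓ hc₀ hc₁0 hℓ hN3 hK1 hKN M hMcard
  have hηKN : 800 * s * N ≤ c₁ / (2 * ℓ) ^ κ * ((K * N : ℕ) : ℝ) := by
    push_cast
    rw [← hss]
    have h1 : 800 * (s * N) ≤ c₁ / (2 * ℓ) ^ κ * s * (s * N) :=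
      mul_le_mul_of_nonneg_right hηs (by positivity)
    linarith
  obtain ⟨X, hXK, hXl, hWc⟩ := pig (K * N) (c₁ / (2 * ℓ) ^ κ) hη0 hη1 (by nlinarith) M hM hcardM
  have hXN : 100 * s * N ≤ X := by linarith
  obtain ⟨Y, hY⟩ : ∃ Y : ℕ, Y = (X - N) / (2 * N) := ⟨_, rfl⟩
  obtain ⟨hYs, hYK, hYX, hX3⟩ := geo N X K Y s (by omega) hY hs800 hXN hXK
  have hYpos : 1 ≤ Y := by
    have : (1 : ℝ) ≤ Y := by linarith
    exact_mod_cast this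
  have hY0 : Y₀ ≤ Y := by
    have h1 : (Y₀ : ℝ) ≤ Y := by
      have h2 : ℓ ≤ s := by
        refine le_trans ?_ (hTh.trans hTs)
        exact le_self_pow₀ hℓ1 (by omega)
      linarith
    exact_mod_cast h1
  have hYKr : 2 * (Y : ℝ) ≤ K := by exact_mod_cast hYK
  have hμ : c₃ / ℓ ≤ ∑ k ∈ (Ioc Y (2 * Y)).filter (fun k => (2 * k + 1).Prime), 1 / (k : ℝ) := by
    refine le_trans ?_ (hklow Y hY0)
    apply div_le_div_of_nonneg_left hc₃.le (Real.log_pos (by linarith))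
    rw [hℓ]
    exact Real.log_le_log (by linarith) (by linarith)
  have hE : ∀ k : ℕ, Y < k → (K : ℝ) / ℓ ^ (4 * κ + 12) ≤ k := by
    intro k hk
    have h1 : X - N < 2 * N * (Y + 1) := by
      rw [hY]
      exact Nat.lt_mul_div_succ _ (by omega)
    have h2 : 2 * N * (Y + 1) ≤ 2 * N * k := Nat.mul_le_mul_left _ hk
    have h3 : 2 * X ≤ 6 * N * k := by
      have : 6 * N * k = 3 * (2 * N * k) := by ring
      omega
    have h4 : 2 * (X : ℝ) ≤ 6 * N * k := by exact_mod_cast h3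
    push_cast at hXl
    have h5 : c₁ / (24 * (2 * ℓ) ^ κ) * K ≤ k := by
      have h6 : c₁ / (24 * (2 * ℓ) ^ κ) * K * (3 * N) = c₁ / (2 * ℓ) ^ κ * (K * N) / 8 := by
        field_simp
        ring
      have h7 : c₁ / (24 * (2 * ℓ) ^ κ) * K * (3 * N) ≤ k * (3 * N) := by linarith
      exact le_of_mul_le_mul_right h7 (by positivity)
    refine le_trans ?_ h5
    rw [div_mul_eq_mul_div, div_le_div_iff₀ (by positivity) (by positivity)]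
    have h8 : 24 * (2 * ℓ) ^ κ ≤ c₁ * ℓ ^ (4 * κ + 12) := by
      have h9 : a₂ * ℓ ^ κ ≤ ℓ ^ (κ + 1) := by
        calc a₂ * ℓ ^ κ ≤ ℓ * ℓ ^ κ := mul_le_mul_of_nonneg_right (by linarith) (by positivity)
          _ = ℓ ^ (κ + 1) := by ring
      have h10 : 800 * (2 : ℝ) ^ κ * ℓ ^ κ ≤ c₁ * ℓ ^ (κ + 1) := by
        have h11 := mul_le_mul_of_nonneg_left h9 hc₁.le
        have h12 : c₁ * (a₂ * ℓ ^ κ) = 800 * 2 ^ κ * ℓ ^ κ := by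
          rw [ha₂]
          field_simp
        linarith
      have h11 : ℓ ^ (κ + 1) ≤ ℓ ^ (4 * κ + 12) := pow_le_pow_right₀ hℓ1 (by omega)
      have h12 := mul_le_mul_of_nonneg_left h11 hc₁.le
      have h13 : 0 ≤ (2 : ℝ) ^ κ * ℓ ^ κ := by positivity
      rw [mul_pow]
      linarith
    calc (K : ℝ) * (24 * (2 * ℓ) ^ κ) ≤ K * (c₁ * ℓ ^ (4 * κ + 12)) :=
          mul_le_mul_of_nonneg_left h8 hK0.le
      _ = c₁ * K * ℓ ^ (4 * κ + 12) := by ring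
  have hgm := good_mem L R N K J X Y (((K * N : ℕ) : ℝ) ^ δ) ((N : ℝ) ^ c) _ (by omega) hJN hX3 hY hYK
    hE hcN M hMind
  have hkey := compare N J X Y z (z ^ B) κ K c₁ c₃ ℓ T _ _ _ _ fp (by omega) hℓ hℓ4 hc₁ hc₃ hJ0 hK0
    hKNr hTdef (by nlinarith) hYpos hYKr hYX (by exact_mod_cast hXK) (by
      rw [← ha₃]
      calc a₃ * ℓ ^ (κ + 3) ≤ ℓ * ℓ ^ (κ + 3) :=
            mul_le_mul_of_nonneg_right (by linarith) (by positivity)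
        _ = ℓ ^ (κ + 4) := by ring
        _ ≤ T := hpow _ (by omega)
        _ ≤ J := hTJ) (by
      rw [← ha₄]
      calc a₄ * ℓ ^ (2 * κ + 3) ≤ ℓ * ℓ ^ (2 * κ + 3) :=
            mul_le_mul_of_nonneg_right (by linarith) (by positivity)
        _ = ℓ ^ (2 * κ + 4) := by ring
        _ ≤ ℓ ^ (2 * κ + 6) := pow_le_pow_right₀ hℓ1 (by omega)
        _ ≤ _ := hTh) (by
      have h1 := hXl
      push_cast at h1
      exact h1) hWc (Nat.one_le_pow _ _ (by omega)) (by push_cast; exact hzBT.trans hTN)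
    (by push_cast; exact hDF) (fun d => (hF d).1) (fun d hd => hsupp d (Or.inl hd))
    (fun k => (hfp k).1) (fun k => (hfp k).2) (by
      have : (z : ℝ) ≤ 2 * Y + 1 := by linarith
      exact_mod_cast this) (filter_subset _ _) (fun k hk => (mem_filter.1 hk).2) rfl hμ
    (filter_subset _ _) (by
      intro m hm
      rw [mem_filter] at hm
      rw [mem_Ico]
      omega) (by
      intro m hm
      rw [mem_filter] at hm
      omega) hgm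
  set G := (Ioc N (8 * N)).filter (fun n => ∃ k j : ℕ, (K : ℝ) / ℓ ^ (4 * κ + 12) ≤ k ∧ k ≤ K ∧
        j ≤ J ∧ (2 * k + 1).Prime ∧ Ind L R ((N : ℝ) ^ c) (k * n + j)) with hG
  have hsum := sum_inv_le N (by omega) G (filter_subset _ _)
  have hsum0 : 0 ≤ ∑ n ∈ G, 1 / (n : ℝ) := sum_nonneg fun n _ => by positivity
  have hlz : 0 < Real.log z := Real.log_pos (by linarith)
  have hkey2 : c₃ / (4 * ℓ) ≤ C₂ / Real.log z * (#G / N) := by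
    refine hkey.trans ?_
    calc mw z fp * ∑ n ∈ G, 1 / (n : ℝ) ≤ C₂ / Real.log z * ∑ n ∈ G, 1 / (n : ℝ) :=
          mul_le_mul_of_nonneg_right hmean hsum0
      _ ≤ _ := mul_le_mul_of_nonneg_left hsum (by positivity)
  have hlogz : θ * Real.log T ≤ Real.log z := by
    rw [← Real.log_rpow hTpos]
    exact Real.log_le_log (Real.rpow_pos_of_pos hTpos _) hTz
  have hlT : 0 ≤ Real.log T := Real.log_nonneg (by linarith)
  exact numC c₃ C₂ θ ℓ N T z (#G) c hℓ0 hC₂ hNr0 hlz hlT hlogz hc₃ hcf hkey2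

end PoolLS
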